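import Pool.Agent.CollatzTime.Adm

set_option autoImplicit false

/-!
# Almost all trajectories follow a straight line: the conclusion
-/

namespace CollatzTime

open CollatzLin CollatzOne Finset Filter Topology

/-- `T` is the first time of the overall minimum of the trajectory of `n`. -/
def IsFM (n : ℤ) (T : ℕ) : Prop :=
  (∀ j, |CollatzExp.C^[T] n| ≤ |CollatzExp.C^[j] n|) ∧
    (∀ j < T, |CollatzExp.C^[T] n| < |CollatzExp.C^[j] n|)

lemma exists_fm (n : ℤ) : ∃ T, IsFM n T := by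
  classical
  have h1 : ∃ T : ℕ, ∀ j, |CollatzExp.C^[T] n| ≤ |CollatzExp.C^[j] n| := by
    have hne : (Set.range fun j : ℕ => (CollatzExp.C^[j] n).natAbs).Nonempty := ⟨_, ⟨0, rfl⟩⟩
    obtain ⟨T, hT⟩ := Nat.sInf_mem hne
    refine ⟨T, fun j => ?_⟩
    have h2 : sInf (Set.range fun j : ℕ => (CollatzExp.C^[j] n).natAbs) ≤
        (CollatzExp.C^[j] n).natAbs := Nat.sInf_le ⟨j, rfl⟩
    rw [← hT] at h2
    simp only at h2
    rw [Int.abs_eq_natAbs, Int.abs_eq_natAbs]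
    exact_mod_cast h2
  refine ⟨Nat.find h1, Nat.find_spec h1, fun j hj => ?_⟩
  have h2 := Nat.find_min h1 hj
  push Not at h2
  obtain ⟨i, hi⟩ := h2
  exact lt_of_le_of_lt (Nat.find_spec h1 i) hi

lemma IsFM.le_of {n : ℤ} {T T' : ℕ} (h : IsFM n T)
    (h' : ∀ j, |CollatzExp.C^[T'] n| ≤ |CollatzExp.C^[j] n|) : T ≤ T' := by
  by_contra hcon
  push Not at hcon
  exact absurd (h.2 T' hcon) (not_lt.2 (h' T))

/-- The first times of the minimum of the points of `[-M, M]` are bounded. -/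
lemma exists_fm_bound (M : ℕ) : ∃ B : ℕ, ∀ m : ℤ, |m| ≤ M → ∃ T ≤ B, IsFM m T := by
  classical
  choose f hf using exists_fm
  refine ⟨∑ m ∈ Icc (-(M : ℤ)) M, f m, fun m hm => ⟨f m, ?_, hf m⟩⟩
  exact single_le_sum (fun _ _ => Nat.zero_le _) (mem_Icc.2 (abs_le.1 hm))

/-- The good integers. -/
def Good (f : ℕ → ℝ) (ε : ℝ) (n : ℤ) : Prop := ∃ T : ℕ,
    (∀ j, |CollatzExp.C^[T] n| ≤ |CollatzExp.C^[j] n|) ∧
    (∀ j < T, |CollatzExp.C^[T] n| < |CollatzExp.C^[j] n|) ∧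
    ((|CollatzExp.C^[T] n| : ℤ) : ℝ) ≤ f n.natAbs ∧
    |(T : ℝ) - kap * Real.log (|(n : ℝ)|)| ≤ ε * Real.log (|(n : ℝ)|) ∧
    ∀ k ≤ T, |Real.log (|((CollatzExp.C^[k] n : ℤ) : ℝ)|) - (Real.log (|(n : ℝ)|) - k / kap)| ≤
      ε * Real.log (|(n : ℝ)|)

lemma one_le_kap : 1 ≤ kap := by
  have h1 := log_four_thirds_ge
  have h2 := log_four_thirds_le
  unfold kap
  rw [le_div_iff₀ (by linarith)]
  linarith

/-- The trajectory enters `[-M, M]`. -/
lemma enters {ε : ℝ} {M : ℕ} {n : ℤ} (h : ¬ Bad ε M n) :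
    ∃ k, |CollatzExp.C^[k] n| ≤ M := by
  by_contra hcon
  push Not at hcon
  unfold Bad at h
  push Not at h
  obtain ⟨k, hk⟩ := exists_nat_gt (kap * ((1 + ε) * Real.log (|(n : ℝ)|)))
  have h1 := h k (fun j _ => hcon j)
  have h2 : 0 ≤ Real.log (|((CollatzExp.C^[k] n : ℤ) : ℝ)|) := by
    have h3 : (1 : ℤ) ≤ |CollatzExp.C^[k] n| := by
      have := hcon k
      have : (0 : ℤ) ≤ M := by positivity
      omega
    exact Real.log_nonneg (by exact_mod_cast h3)
  have h3 := (le_abs_self _).trans h1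
  unfold Dev at h3
  have h4 : (k : ℝ) / kap ≤ (1 + ε) * Real.log (|(n : ℝ)|) := by linarith
  rw [div_le_iff₀ kap_pos] at h4
  linarith

/-- A point that is not bad is good or small. -/
lemma good_of_not_bad {f : ℕ → ℝ} (hf : Tendsto f atTop atTop) {ε : ℝ} (hε : 0 < ε) (M : ℕ) :
    ∃ n₁ : ℕ, ∀ n : ℤ, (n₁ : ℤ) < |n| → ¬ Bad (ε / (2 * kap)) M n → Good f ε n := by
  classical
  obtain ⟨n₂, hn₂⟩ := (hf.eventually (eventually_ge_atTop (M : ℝ))).exists_forall_of_atTop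
  obtain ⟨B, hB⟩ := exists_fm_bound M
  have hκ := kap_pos
  have hκ1 := one_le_kap
  obtain ⟨n₁, hn₁⟩ := exists_nat_ge (Real.exp (2 * kap * (2 * B + 2 + M) / ε))
  refine ⟨max (max n₁ M) n₂, fun n hn hbad => ?_⟩
  have hn1 : (n₁ : ℝ) ≤ |(n : ℝ)| := by
    have : (n₁ : ℤ) ≤ |n| := by
      have := le_max_left n₁ M
      have := le_max_left (max n₁ M) n₂
      omega
    exact_mod_cast this
  have hnM : (M : ℤ) < |n| := by
    have := le_max_right n₁ M
    have := le_max_left (max n₁ M) n₂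
    omega
  have hfn : (M : ℝ) ≤ f n.natAbs := by
    apply hn₂
    have := le_max_right (max n₁ M) n₂
    rw [Int.abs_eq_natAbs] at hn
    omega
  have hn0 : n ≠ 0 := by
    rintro rfl
    simp at hnM
    omega
  -- the size of `n`
  have hlog : 2 * kap * (2 * B + 2 + M) ≤ ε * Real.log (|(n : ℝ)|) := by
    have h1 := Real.log_le_log (Real.exp_pos _) (hn₁.trans hn1)
    rw [Real.log_exp, div_le_iff₀ hε] at h1
    linarith
  have hB0 : (0 : ℝ) ≤ B := Nat.cast_nonneg _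
  have hM0 : (0 : ℝ) ≤ M := Nat.cast_nonneg _
  have hlog1 : 2 * (2 * (B : ℝ) + 2 + M) ≤ ε * Real.log (|(n : ℝ)|) := by
    refine le_trans ?_ hlog
    nlinarith
  have hε' : ε / (2 * kap) * Real.log (|(n : ℝ)|) = ε * Real.log (|(n : ℝ)|) / 2 / kap := by
    field_simp
  have hX : 0 ≤ ε * Real.log (|(n : ℝ)|) := by linarith
  have hε2 : ε / (2 * kap) * Real.log (|(n : ℝ)|) ≤ ε * Real.log (|(n : ℝ)|) / 2 := by
    rw [hε']
    exact div_le_self (by linarith) hκ1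
  -- first entrance
  have hent := enters hbad
  have hk₀ : |CollatzExp.C^[Nat.find hent] n| ≤ M := Nat.find_spec hent
  have hlt : ∀ j < Nat.find hent, (M : ℤ) < |CollatzExp.C^[j] n| := fun j hj => by
    have := Nat.find_min hent hj
    push Not at this
    exact this
  have hpos : Nat.find hent ≠ 0 := by
    intro h0
    rw [h0] at hk₀
    simp only [Function.iterate_zero, id_eq] at hk₀
    omega
  obtain ⟨k₀, hk₀'⟩ : ∃ k₀, Nat.find hent = k₀ + 1 := ⟨Nat.find hent - 1, by omega⟩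
  rw [hk₀'] at hk₀ hlt
  -- the first minimum
  obtain ⟨t, htB, ht⟩ := hB _ hk₀
  obtain ⟨T, hT⟩ := exists_fm n
  have hT1 : T ≤ k₀ + 1 + t := by
    refine hT.le_of fun j => ?_
    rw [show k₀ + 1 + t = t + (k₀ + 1) by omega, Function.iterate_add_apply _ t (k₀ + 1)]
    by_cases hj : j < k₀ + 1
    · have h1 := ht.1 0
      rw [Function.iterate_zero, id_eq] at h1
      have h2 := hlt j hj
      omega
    · obtain ⟨i, rfl⟩ : ∃ i, j = i + (k₀ + 1) := ⟨j - (k₀ + 1), by omega⟩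
      rw [Function.iterate_add_apply _ i (k₀ + 1)]
      exact ht.1 i
  have hT2 : k₀ + 1 ≤ T := by
    by_contra hcon
    push Not at hcon
    have h1 := hT.1 (k₀ + 1)
    have h2 := hlt T hcon
    omega
  -- the deviation
  unfold Bad at hbad
  push Not at hbad
  have hdev : ∀ k ≤ T, |Dev k n| ≤ ε / (2 * kap) * Real.log (|(n : ℝ)|) + (2 * B + 2) := by
    intro k hk
    by_cases hk1 : k < k₀ + 1
    · have h1 := hbad k (fun j hj => hlt j (by omega))
      linarith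
    · obtain ⟨s, rfl⟩ : ∃ s, k = k₀ + s := ⟨k - k₀, by omega⟩
      have h1 := hbad k₀ (fun j hj => hlt j (by omega))
      have h2 := abs_Dev_le (C_iter_ne_zero hn0 k₀) s
      have h3 : (s : ℝ) ≤ B + 1 := by
        have : s ≤ B + 1 := by omega
        exact_mod_cast this
      rw [Dev_add]
      have h4 := abs_add_le (Dev k₀ n) (Dev s (CollatzExp.C^[k₀] n))
      linarith
  have hdevT := hdev T le_rfl
  have hTM : |CollatzExp.C^[T] n| ≤ M := (hT.1 (k₀ + 1)).trans hk₀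
  have hT0 : (1 : ℤ) ≤ |CollatzExp.C^[T] n| := Int.one_le_abs (C_iter_ne_zero hn0 T)
  have hTM' : |((CollatzExp.C^[T] n : ℤ) : ℝ)| ≤ M := by exact_mod_cast hTM
  have hT0' : (1 : ℝ) ≤ |((CollatzExp.C^[T] n : ℤ) : ℝ)| := by exact_mod_cast hT0
  have hlogT0 := Real.log_nonneg hT0'
  have hlogT1 : Real.log (|((CollatzExp.C^[T] n : ℤ) : ℝ)|) ≤ M := by
    have := Real.log_le_sub_one_of_pos (lt_of_lt_of_le one_pos hT0')
    linarith
  have hTM'' : ((|CollatzExp.C^[T] n| : ℤ) : ℝ) ≤ M := by exact_mod_cast hTM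
  refine ⟨T, hT.1, hT.2, hTM''.trans hfn, ?_, fun k hk => ?_⟩
  · have h1 : |(T : ℝ) / kap - Real.log (|(n : ℝ)|)| ≤
        ε * Real.log (|(n : ℝ)|) / 2 / kap + (2 * B + 2 + M) := by
      rw [hε'] at hdevT
      unfold Dev at hdevT
      rw [abs_le] at hdevT ⊢
      constructor <;> linarith [hdevT.1, hdevT.2]
    have h2 : (T : ℝ) - kap * Real.log (|(n : ℝ)|) = kap * ((T : ℝ) / kap - Real.log (|(n : ℝ)|)) := by
      field_simp
    rw [h2, abs_mul, abs_of_pos hκ]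
    calc kap * |(T : ℝ) / kap - Real.log (|(n : ℝ)|)|
        ≤ kap * (ε * Real.log (|(n : ℝ)|) / 2 / kap + (2 * B + 2 + M)) :=
          mul_le_mul_of_nonneg_left h1 hκ.le
      _ = ε * Real.log (|(n : ℝ)|) / 2 + kap * (2 * B + 2 + M) := by field_simp
      _ ≤ ε * Real.log (|(n : ℝ)|) := by linarith
  · have h1 := hdev k hk
    have h2 : Real.log (|((CollatzExp.C^[k] n : ℤ) : ℝ)|) - (Real.log (|(n : ℝ)|) - k / kap) =
        Dev k n := by
      unfold Dev
      ring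
    rw [h2]
    linarith

/-- The bad integers are rare. -/
lemma bad_small (ho : Stmt_oo) (ht : Stmt_transfer) {ε δ : ℝ} (hε : 0 < ε) (hδ : 0 < δ) :
    ∃ (M : ℕ) (B : ℝ), ∀ X : ℕ, cnt (Bad ε M) X ≤ δ * X + B := by
  obtain ⟨M, B, h⟩ := ho (ε / 4) (δ / 1000) (by positivity) (by positivity)
  obtain ⟨B', h'⟩ := ht ε (δ / 1000) M B hε (by positivity) h
  refine ⟨M, B', fun X => (h' X).trans (le_of_eq ?_)⟩
  ring

theorem final_of (ho : Stmt_oo) (ht : Stmt_transfer) : Stmt_final := by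
  classical
  intro f hf ε hε
  have hset : ∀ N : ℕ, ({n : ℤ | |n| ≤ N ∧ ∃ T : ℕ, (∀ j, |CollatzExp.C^[T] n| ≤ |CollatzExp.C^[j] n|) ∧
    (∀ j < T, |CollatzExp.C^[T] n| < |CollatzExp.C^[j] n|) ∧
    ((|CollatzExp.C^[T] n| : ℤ) : ℝ) ≤ f n.natAbs ∧
    |(T : ℝ) - kap * Real.log (|(n : ℝ)|)| ≤ ε * Real.log (|(n : ℝ)|) ∧
    ∀ k ≤ T, |Real.log (|((CollatzExp.C^[k] n : ℤ) : ℝ)|) - (Real.log (|(n : ℝ)|) - k / kap)| ≤
      ε * Real.log (|(n : ℝ)|)}.ncard : ℝ) = cnt (Good f ε) N := by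
    intro N
    unfold cnt
    rw [← Set.ncard_coe_finset]
    congr 2
    ext n
    rw [Set.mem_ofPred_eq, mem_coe, mem_filter, mem_Icc, abs_le]
    rfl
  simp only [hset]
  have htot : ∀ N : ℕ, (2 * N + 1 : ℝ) ≤ cnt (Good f ε) N + cnt (fun n => ¬ Good f ε n) N := by
    intro N
    have h1 : cnt (fun _ => True) N ≤ cnt (Good f ε) N + cnt (fun n => ¬ Good f ε n) N :=
      cnt_or fun n _ => em _
    refine le_trans (le_of_eq ?_) h1
    unfold cnt
    simp only [Finset.filter_true]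
    rw [Int.card_Icc]
    have : ((N : ℤ) + 1 - -(N : ℤ)).toNat = 2 * N + 1 := by omega
    rw [this]
    push_cast
    ring
  rw [Metric.tendsto_atTop]
  intro η hη
  obtain ⟨M, B, hM⟩ := bad_small ho ht (ε := ε / (2 * kap)) (δ := η / 2)
    (div_pos hε (by have := kap_pos; positivity)) (by positivity)
  obtain ⟨n₁, hn₁⟩ := good_of_not_bad hf hε M
  obtain ⟨N₁, hN₁⟩ := exists_nat_gt ((2 * n₁ + 1 + |B|) / η)
  refine ⟨N₁, fun N hN => ?_⟩
  have hN1 : (N₁ : ℝ) ≤ N := by exact_mod_cast hN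
  have h1 := cnt_le (Good f ε) N
  have h2 := htot N
  have h3 : cnt (fun n => ¬ Good f ε n) N ≤
      cnt (fun n => |n| ≤ n₁) N + cnt (Bad (ε / (2 * kap)) M) N := by
    refine cnt_or fun n hn => ?_
    by_cases hc : |n| ≤ n₁
    · exact Or.inl hc
    · right
      by_contra hb
      exact hn (hn₁ n (by omega) hb)
  have h4 : cnt (fun n => |n| ≤ n₁) N ≤ 2 * n₁ + 1 := by
    refine (cnt_map (q := fun _ => True) (Y := n₁) id ?_ ?_).trans (cnt_le _ n₁)
    · intro n _ h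
      exact ⟨trivial, h⟩
    · intro n m _ _ h
      exact h
  have h5 := hM N
  have h6 : (2 * n₁ + 1 + |B| : ℝ) < η * N := by
    have : (2 * n₁ + 1 + |B| : ℝ) / η < N := lt_of_lt_of_le hN₁ hN1
    rw [div_lt_iff₀ hη] at this
    linarith
  have h7 := le_abs_self B
  have h0 : (0 : ℝ) ≤ N := Nat.cast_nonneg N
  have hpos : (0 : ℝ) < 2 * N + 1 := by positivity
  have h8 : 0 ≤ η * N := by positivity
  rw [Real.dist_eq, abs_lt]
  constructor
  · have : 1 - η < cnt (Good f ε) N / (2 * N + 1) := by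
      rw [lt_div_iff₀ hpos]
      linarith
    linarith
  · have : cnt (Good f ε) N / (2 * N + 1) ≤ 1 := by
      rw [div_le_one hpos]
      exact h1
    linarith

theorem final_proof (ho : Stmt_oo) (ht : Stmt_transfer) : Stmt_final := final_of ho ht

end CollatzTime
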