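import Pool.Agent.CollatzTime.Defs

set_option autoImplicit false

/-!
# The bad integers of the form `3 v - 1`: from logarithmic sums to counting
-/

namespace CollatzTime

open CollatzLin CollatzOne Finset Filter Topology

lemma bf_zero {ε : ℝ} {M B : ℕ} (hM : 3 * 2 ^ B + 1 ≤ M) {v : ℤ} (hv : |v| < 2 ^ B) :
    bf ε M v = 0 := by
  unfold bf
  rw [if_neg]
  rintro ⟨k, h, -⟩
  have h1 := h 0 (Nat.zero_le k)
  simp only [Function.iterate_zero, id_eq] at h1
  have h2 : |3 * v - 1| ≤ 3 * |v| + 1 := by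
    have := abs_sub (3 * v) 1
    have h3 : |(3 : ℤ)| = 3 := rfl
    have h4 : |(1 : ℤ)| = 1 := rfl
    rw [abs_mul, h3, h4] at this
    exact this
  have h5 : (3 * 2 ^ B + 1 : ℤ) ≤ M := by exact_mod_cast hM
  linarith

open Classical in
lemma oo_card_win_le (ε : ℝ) (M L : ℕ) :
    (((win L (L + 1)).filter (fun v => Bad ε M (3 * v - 1))).card : ℝ) ≤
      2 ^ (L + 1) * LS L (L + 1) (bf ε M) := by
  unfold LS
  have h1 : ∑ v ∈ (win L (L + 1)).filter (fun v => Bad ε M (3 * v - 1)), (1 : ℝ) / 2 ^ (L + 1) ≤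
      ∑ v ∈ win L (L + 1), bf ε M v / |(v : ℝ)| := by
    rw [sum_filter]
    refine sum_le_sum fun v hv => ?_
    have h2 := win_real hv
    have h3 := abs_pos_of_win hv
    unfold bf
    split_ifs
    · exact one_div_le_one_div_of_le h3 h2.2.le
    · simp
  rw [sum_const, nsmul_eq_mul, mul_one_div, div_le_iff₀ (by positivity)] at h1
  linarith

open Classical in
lemma oo_card_bx_le {ε : ℝ} {M L₀ : ℕ} {δ : ℝ} (hδ : 0 ≤ δ)
    (h : ∀ L, L₀ ≤ L → LS L (L + 1) (bf ε M) ≤ δ)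
    (L : ℕ) : (((bx L).filter (fun v => Bad ε M (3 * v - 1))).card : ℝ) ≤
      2 ^ (L₀ + 1) + δ * 2 ^ (L + 1) := by
  induction L with
  | zero =>
    have h1 : ((bx 0).filter (fun v => Bad ε M (3 * v - 1))).card ≤ 2 := by
      refine (card_filter_le _ _).trans ((card_filter_le _ _).trans ?_)
      rw [Int.card_Ioo]
      norm_num
    have h2 : (((bx 0).filter (fun v => Bad ε M (3 * v - 1))).card : ℝ) ≤ 2 := by exact_mod_cast h1
    have h3 : (2 : ℝ) ≤ 2 ^ (L₀ + 1) := by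
      calc (2 : ℝ) = 2 ^ 1 := by norm_num
        _ ≤ 2 ^ (L₀ + 1) := pow_le_pow_right₀ (by norm_num) (by omega)
    have h4 : 0 ≤ δ * 2 ^ (0 + 1) := by positivity
    linarith
  | succ L ih =>
    by_cases hL : L < L₀
    · have h1 : ((bx (L + 1)).filter (fun v => Bad ε M (3 * v - 1))).card ≤ 2 ^ (L₀ + 1) := by
        refine (card_filter_le _ _).trans ((card_filter_le _ _).trans ?_)
        rw [Int.card_Ioo, Int.toNat_le]
        have h2 : (2 : ℤ) ^ (L + 1) ≤ 2 ^ L₀ := pow_le_pow_right₀ (by norm_num) hL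
        push_cast
        rw [pow_succ 2 L₀]
        linarith
      have h2 : (((bx (L + 1)).filter (fun v => Bad ε M (3 * v - 1))).card : ℝ) ≤ 2 ^ (L₀ + 1) := by
        exact_mod_cast h1
      have h3 : 0 ≤ δ * 2 ^ (L + 1 + 1) := by positivity
      linarith
    · push Not at hL
      have h1 : ((bx (L + 1)).filter (fun v => Bad ε M (3 * v - 1))).card ≤
          ((bx L).filter (fun v => Bad ε M (3 * v - 1))).card +
          ((win L (L + 1)).filter (fun v => Bad ε M (3 * v - 1))).card := by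
        refine le_trans (card_le_card ?_) (card_union_le _ _)
        intro v hv
        rw [mem_filter, mem_bx] at hv
        rw [mem_union, mem_filter, mem_filter, mem_bx, mem_win]
        by_cases hc : |v| < 2 ^ L
        · exact Or.inl ⟨⟨hc, hv.1.2⟩, hv.2⟩
        · exact Or.inr ⟨⟨by omega, hv.1.1, hv.1.2⟩, hv.2⟩
      have h2 : (((bx (L + 1)).filter (fun v => Bad ε M (3 * v - 1))).card : ℝ) ≤
          ((bx L).filter (fun v => Bad ε M (3 * v - 1))).card +
          ((win L (L + 1)).filter (fun v => Bad ε M (3 * v - 1))).card := by exact_mod_cast h1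
      have h3 := oo_card_win_le ε M L
      have h4 : (2 : ℝ) ^ (L + 1) * LS L (L + 1) (bf ε M) ≤ 2 ^ (L + 1) * δ :=
        mul_le_mul_of_nonneg_left (h L hL) (by positivity)
      have h5 : δ * 2 ^ (L + 1 + 1) = δ * 2 ^ (L + 1) + 2 ^ (L + 1) * δ := by rw [pow_succ]; ring
      linarith

theorem oo_proof (hs : Stmt_small) (ha : Stmt_adm) : Stmt_oo := by
  intro ε δ hε hδ
  obtain ⟨c, n₀, hc, hadm⟩ := ha ε hε
  obtain ⟨L₁, hL⟩ := hs c n₀ (δ / 8) hc (by positivity)
  set M := 3 * 2 ^ (2 * L₁) + 1 with hM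
  have hLS : ∀ L, 2 * L₁ ≤ L → LS L (L + 1) (bf ε M) ≤ δ / 8 :=
    hL (bf ε M) (hadm M) (fun v hv => bf_zero le_rfl hv)
  refine ⟨M, 2 ^ (2 * L₁ + 1), ?_⟩
  intro X
  classical
  have h1 : cnt (fun v => OO v ∧ Bad ε M (3 * v - 1)) X ≤
      (((bx (Nat.log 2 X + 1)).filter (fun v => Bad ε M (3 * v - 1))).card : ℝ) := by
    unfold cnt
    have h2 : ((Icc (-(X : ℤ)) X).filter (fun v => OO v ∧ Bad ε M (3 * v - 1))).card ≤
        ((bx (Nat.log 2 X + 1)).filter (fun v => Bad ε M (3 * v - 1))).card := by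
      apply card_le_card
      intro v hv
      rw [mem_filter, mem_Icc] at hv
      rw [mem_filter, mem_bx]
      refine ⟨⟨?_, hv.2.1⟩, hv.2.2⟩
      have h3 := Nat.lt_pow_succ_log_self (b := 2) (by norm_num) X
      have h4 : (X : ℤ) < 2 ^ (Nat.log 2 X + 1) := by exact_mod_cast h3
      exact lt_of_le_of_lt (abs_le.2 hv.1) h4
    exact_mod_cast h2
  have h2 := oo_card_bx_le (by positivity) hLS (Nat.log 2 X + 1)
  rcases Nat.eq_zero_or_pos X with hX | hX
  · subst hX
    have h3 := cnt_le (fun v => OO v ∧ Bad ε M (3 * v - 1)) 0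
    have h4 : (1 : ℝ) ≤ 2 ^ (2 * L₁ + 1) := one_le_pow₀ (by norm_num)
    push_cast at h3 ⊢
    linarith
  · have h3 := Nat.pow_log_le_self 2 (by omega : X ≠ 0)
    have h4 : (2 : ℝ) ^ Nat.log 2 X ≤ X := by exact_mod_cast h3
    have h5 : δ / 8 * 2 ^ (Nat.log 2 X + 1 + 1) ≤ δ * X := by
      have : δ / 8 * 2 ^ (Nat.log 2 X + 1 + 1) = δ / 2 * 2 ^ Nat.log 2 X := by
        rw [pow_succ, pow_succ]; ring
      rw [this]
      have h6 : δ / 2 * 2 ^ Nat.log 2 X ≤ δ / 2 * X :=
        mul_le_mul_of_nonneg_left h4 (by positivity)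
      have h7 : 0 ≤ δ * X := by positivity
      linarith
    linarith

end CollatzTime
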