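import Pool.Agent.CollatzTime.Defs

set_option autoImplicit false

/-!
# Transfer: from the integers of the form `3 v - 1`, `OO v`, to all integers
-/

namespace CollatzTime

open CollatzLin CollatzOne Finset Filter Topology

lemma tr_kap_inv : 0 < 1 / kap ∧ 1 / kap < 1 / 2 := by
  unfold kap
  have h1 : 0 < Real.log (4 / 3) := Real.log_pos (by norm_num)
  have h2 : Real.log (4 / 3) < 1 / 3 := by
    have := Real.log_lt_sub_one_of_pos (show (0 : ℝ) < 4 / 3 by norm_num) (by norm_num)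
    linarith
  rw [one_div_div]
  constructor
  · positivity
  · linarith

/-- one step changes the logarithm by at most `log 4`. -/
lemma tr_log_step {m : ℤ} (hm : m ≠ 0) :
    |Real.log (|((CollatzExp.C m : ℤ) : ℝ)|) - Real.log (|(m : ℝ)|)| ≤ 3 / 2 := by
  have hm1 : (1 : ℝ) ≤ |(m : ℝ)| := by
    have h1 : 1 ≤ |m| := Int.one_le_abs hm
    have : ((1 : ℤ) : ℝ) ≤ ((|m| : ℤ) : ℝ) := by exact_mod_cast h1
    simpa using this
  have hpos : 0 < |(m : ℝ)| := by linarith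
  have hlog2 : Real.log 2 < 0.7 := by
    have := Real.log_two_lt_d9
    linarith
  have hlog2' : 0 < Real.log 2 := Real.log_pos (by norm_num)
  rcases Int.emod_two_eq_zero_or_one m with h | h
  · rw [CollatzExp.C_even h]
    obtain ⟨r, hr⟩ : ∃ r, m = 2 * r := ⟨m / 2, by omega⟩
    have hr2 : m / 2 = r := by omega
    rw [hr2, hr]
    have hr0 : (r : ℝ) ≠ 0 := by
      intro h0
      apply hm
      have : r = 0 := by exact_mod_cast h0
      rw [hr, this]; rfl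
    push_cast
    rw [abs_mul, Real.log_mul (by norm_num) (abs_ne_zero.mpr hr0), abs_of_pos (show (0 : ℝ) < 2 by norm_num)]
    rw [abs_le]
    constructor <;> linarith
  · rw [CollatzExp.C_odd h]
    push_cast
    have h1 : |3 * (m : ℝ) + 1| ≤ 4 * |(m : ℝ)| := by
      have := abs_add_le (3 * (m : ℝ)) 1
      rw [abs_mul, abs_of_pos (show (0 : ℝ) < 3 by norm_num), abs_one] at this
      linarith
    have h2 : 2 * |(m : ℝ)| ≤ |3 * (m : ℝ) + 1| := by
      have := abs_sub_abs_le_abs_sub (3 * (m : ℝ)) (-1)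
      rw [abs_mul, abs_of_pos (show (0 : ℝ) < 3 by norm_num), abs_neg, abs_one, sub_neg_eq_add] at this
      linarith
    have h3 : Real.log (|3 * (m : ℝ) + 1|) ≤ Real.log (4 * |(m : ℝ)|) :=
      Real.log_le_log (by linarith) h1
    have h4 : Real.log (2 * |(m : ℝ)|) ≤ Real.log (|3 * (m : ℝ) + 1|) :=
      Real.log_le_log (by linarith) h2
    rw [Real.log_mul (by norm_num) (by linarith)] at h3 h4
    have h5 : Real.log 4 = 2 * Real.log 2 := by
      rw [show (4 : ℝ) = 2 ^ 2 by norm_num, Real.log_pow]; norm_num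
    rw [h5] at h3
    rw [abs_le]
    constructor <;> linarith

lemma tr_dev_zero (n : ℤ) : Dev 0 n = 0 := by
  unfold Dev
  simp

lemma tr_dev_succ (k : ℕ) (n : ℤ) (hk : CollatzExp.C^[k] n ≠ 0) :
    |Dev (k + 1) n - Dev k n| ≤ 2 := by
  have h1 := tr_log_step hk
  have h2 : Dev (k + 1) n - Dev k n = 1 / kap +
      (Real.log (|((CollatzExp.C (CollatzExp.C^[k] n) : ℤ) : ℝ)|) -
        Real.log (|((CollatzExp.C^[k] n : ℤ) : ℝ)|)) := by
    unfold Dev
    rw [Function.iterate_succ_apply']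
    push_cast
    ring
  rw [h2]
  have h3 := tr_kap_inv
  rw [abs_le] at h1 ⊢
  constructor <;> linarith

lemma tr_dev_le (k : ℕ) (n : ℤ) (h : ∀ j < k, CollatzExp.C^[j] n ≠ 0) : |Dev k n| ≤ 2 * k := by
  induction k with
  | zero => rw [tr_dev_zero]; simp
  | succ k ih =>
    have h1 := ih (fun j hj => h j (by omega))
    have h2 := tr_dev_succ k n (h k (by omega))
    have h3 : |Dev (k + 1) n| ≤ |Dev (k + 1) n - Dev k n| + |Dev k n| := by
      have := abs_add_le (Dev (k + 1) n - Dev k n) (Dev k n)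
      rwa [sub_add_cancel] at this
    push_cast
    linarith

lemma tr_dev_split (j i : ℕ) (n : ℤ) :
    Dev (j + i) n = Dev j n + Dev i (CollatzExp.C^[j] n) := by
  unfold Dev
  rw [← Function.iterate_add_apply, Nat.add_comm i j]
  push_cast
  ring

lemma tr_exists_large (c ε ε' : ℝ) (h : ε' < ε) : ∃ n₁ : ℕ, ∀ n : ℤ, (n₁ : ℤ) ≤ |n| →
    ε' * Real.log (|(n : ℝ)|) + c < ε * Real.log (|(n : ℝ)|) := by
  have ht : Tendsto (fun x : ℕ => Real.log (x : ℝ)) atTop atTop :=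
    Real.tendsto_log_atTop.comp tendsto_natCast_atTop_atTop
  obtain ⟨n₁, hn₁⟩ := (ht.eventually (eventually_gt_atTop (c / (ε - ε')))).exists_forall_of_atTop
  refine ⟨n₁, fun n hn => ?_⟩
  have h1 : n₁ ≤ n.natAbs := by
    rw [Int.abs_eq_natAbs] at hn
    exact_mod_cast hn
  have h2 := hn₁ n.natAbs h1
  have h3 : ((n.natAbs : ℕ) : ℝ) = |(n : ℝ)| := by
    rw [Nat.cast_natAbs]; simp
  rw [h3, div_lt_iff₀ (by linarith)] at h2
  linarith

/-- Lemma T1. -/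
lemma tr_T1 (ε ε' : ℝ) (hε' : 0 < ε') (h : ε' < ε) (J : ℕ) : ∃ n₁ : ℕ, ∀ (M : ℕ) (n : ℤ),
    (n₁ : ℤ) ≤ |n| → Bad ε M n → ∀ j ≤ J, Bad ε' M (CollatzExp.C^[j] n) := by
  obtain ⟨n₁, hn₁⟩ := tr_exists_large (2 * J + 2 * J * ε') ε ε' h
  refine ⟨n₁ + 1, ?_⟩
  rintro M n hn ⟨k, hk1, hk2⟩ j hj
  have hn' : (n₁ : ℤ) ≤ |n| := by push_cast at hn; omega
  have hbig := hn₁ n hn'
  have hne : ∀ i ≤ k, CollatzExp.C^[i] n ≠ 0 := by
    intro i hi h0
    have := hk1 i hi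
    rw [h0] at this
    simp at this
    omega
  have hn1 : (1 : ℝ) ≤ |(n : ℝ)| := by
    have h1 : 1 ≤ |n| := by push_cast at hn; omega
    have : ((1 : ℤ) : ℝ) ≤ ((|n| : ℤ) : ℝ) := by exact_mod_cast h1
    simpa using this
  have hlog : 0 ≤ Real.log (|(n : ℝ)|) := Real.log_nonneg hn1
  have hJ : (0 : ℝ) ≤ J := Nat.cast_nonneg J
  have hJe : 0 ≤ 2 * J * ε' := by positivity
  have hle : 0 ≤ ε' * Real.log (|(n : ℝ)|) := by positivity
  have hjk : j ≤ k := by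
    by_contra hc
    push Not at hc
    have h1 := tr_dev_le k n (fun i hi => hne i hi.le)
    have h2 : (k : ℝ) ≤ J := by exact_mod_cast (by omega : k ≤ J)
    linarith
  obtain ⟨i, rfl⟩ := Nat.exists_eq_add_of_le hjk
  refine ⟨i, ?_, ?_⟩
  · intro l hl
    rw [← Function.iterate_add_apply]
    exact hk1 (l + j) (by omega)
  · have h1 := tr_dev_le j n (fun l hl => hne l (by omega))
    have hjJ : (j : ℝ) ≤ J := by exact_mod_cast hj
    have h2 := tr_dev_split j i n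
    -- log |C^j n| ≤ log |n| + 2 J
    have h3 : Real.log (|((CollatzExp.C^[j] n : ℤ) : ℝ)|) ≤ Real.log (|(n : ℝ)|) + 2 * J := by
      have h4 : Real.log (|((CollatzExp.C^[j] n : ℤ) : ℝ)|) =
          Dev j n + Real.log (|(n : ℝ)|) - j / kap := by
        unfold Dev; ring
      have h5 : 0 ≤ (j : ℝ) / kap := by
        have h6 := tr_kap_inv.1
        rw [div_eq_mul_one_div]
        positivity
      have h6 := (abs_le.mp h1).2
      linarith
    have h4 : ε' * Real.log (|((CollatzExp.C^[j] n : ℤ) : ℝ)|) ≤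
        ε' * (Real.log (|(n : ℝ)|) + 2 * J) := mul_le_mul_of_nonneg_left h3 hε'.le
    have h5 : |Dev (j + i) n| ≤ |Dev j n| + |Dev i (CollatzExp.C^[j] n)| := by
      rw [h2]; exact abs_add_le _ _
    linarith

/-- Lemma T2. -/
lemma tr_T2 (ε ε' : ℝ) (hε' : 0 < ε') (h : ε' < ε) : ∃ n₁ : ℕ, ∀ (M : ℕ) (n : ℤ),
    (n₁ : ℤ) ≤ |n| → Bad ε M n → Bad ε' M (2 * n) := by
  obtain ⟨n₁, hn₁⟩ := tr_exists_large (1 + ε') ε ε' h
  refine ⟨n₁ + 1, ?_⟩
  rintro M n hn ⟨k, hk1, hk2⟩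
  have hn' : (n₁ : ℤ) ≤ |n| := by push_cast at hn; omega
  have hbig := hn₁ n hn'
  have hC : CollatzExp.C (2 * n) = n := by rw [CollatzExp.C_even (by omega)]; omega
  have hn0 : n ≠ 0 := by
    rintro rfl
    simp at hn
    omega
  have hnr : (n : ℝ) ≠ 0 := by exact_mod_cast hn0
  refine ⟨k + 1, ?_, ?_⟩
  · intro j hj
    rcases j with _ | j
    · have := hk1 0 (Nat.zero_le _)
      simp only [Function.iterate_zero, id_eq] at this ⊢
      have h2 : |(2 : ℤ)| = 2 := rfl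
      rw [abs_mul, h2]
      omega
    · rw [Function.iterate_succ_apply, hC]
      exact hk1 j (by omega)
  · have h1 : Dev (k + 1) (2 * n) = Dev k n + (1 / kap - Real.log 2) := by
      unfold Dev
      rw [Function.iterate_succ_apply, hC]
      push_cast
      rw [abs_mul, abs_of_pos (show (0 : ℝ) < 2 by norm_num),
        Real.log_mul (by norm_num) (abs_ne_zero.mpr hnr)]
      ring
    have hlog2 : Real.log 2 < 0.7 := by
      have := Real.log_two_lt_d9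
      linarith
    have hlog2' : 0 < Real.log 2 := Real.log_pos (by norm_num)
    have h2 : |Dev k n| ≤ |Dev (k + 1) (2 * n)| + 1 := by
      have h3 : Dev k n = Dev (k + 1) (2 * n) + (Real.log 2 - 1 / kap) := by rw [h1]; ring
      have h4 : |Real.log 2 - 1 / kap| ≤ 1 := by
        have := tr_kap_inv
        rw [abs_le]; constructor <;> linarith
      have h5 := abs_add_le (Dev (k + 1) (2 * n)) (Real.log 2 - 1 / kap)
      rw [← h3] at h5
      linarith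
    have h3 : ε' * Real.log (|((2 * n : ℤ) : ℝ)|) ≤ ε' * Real.log (|(n : ℝ)|) + ε' := by
      push_cast
      rw [abs_mul, abs_of_pos (show (0 : ℝ) < 2 by norm_num),
        Real.log_mul (by norm_num) (abs_ne_zero.mpr hnr)]
      nlinarith
    linarith

/-- monotonicity in `ε`. -/
lemma tr_mono {ε ε' : ℝ} (h : ε' ≤ ε) {M : ℕ} {n : ℤ} (hb : Bad ε M n) : Bad ε' M n := by
  obtain ⟨k, hk1, hk2⟩ := hb
  refine ⟨k, hk1, lt_of_le_of_lt ?_ hk2⟩
  apply mul_le_mul_of_nonneg_right h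
  apply Real.log_nonneg
  have h1 : 1 ≤ |n| := by
    have := hk1 0 (Nat.zero_le _)
    simp only [Function.iterate_zero, id_eq] at this
    omega
  have : ((1 : ℤ) : ℝ) ≤ ((|n| : ℤ) : ℝ) := by exact_mod_cast h1
  simpa using this

lemma tr_cnt_small (p : ℤ → Prop) (n₁ X : ℕ) (h : ∀ n, p n → |n| ≤ n₁) : cnt p X ≤ 2 * n₁ + 1 := by
  refine (cnt_map (q := fun _ => True) (Y := n₁) id ?_ ?_).trans (cnt_le _ n₁)
  · intro n _ hp
    exact ⟨trivial, h n hp⟩
  · intro n m _ _ h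
    exact h

lemma tr_half (X : ℕ) (c : ℝ) (hc : 0 ≤ c) : c * ((X / 2 : ℕ) : ℝ) ≤ c * X / 2 := by
  have h1 : (((X / 2 : ℕ)) : ℝ) ≤ X / 2 := by
    have := Nat.cast_div_le (α := ℝ) (m := X) (n := 2)
    simpa using this
  have := mul_le_mul_of_nonneg_left h1 hc
  linarith

lemma tr_quarter (X : ℕ) (c : ℝ) (hc : 0 ≤ c) : c * ((X / 4 : ℕ) : ℝ) ≤ c * X / 4 := by
  have h1 : (((X / 4 : ℕ)) : ℝ) ≤ X / 4 := by
    have := Nat.cast_div_le (α := ℝ) (m := X) (n := 4)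
    simpa using this
  have := mul_le_mul_of_nonneg_left h1 hc
  linarith

/-- The integers congruent to `2` modulo `3`. -/
lemma tr_two {ε δ : ℝ} {M : ℕ} {B : ℝ} (hε : 0 < ε) (hδ : 0 < δ)
    (h : ∀ X : ℕ, cnt (fun v => OO v ∧ Bad (ε / 4) M (3 * v - 1)) X ≤ δ * X + B) (I : ℕ) :
    ∀ ε₁ : ℝ, ε / 4 < ε₁ → ∃ B' : ℝ, ∀ X : ℕ,
      cnt (fun n => n % 3 = 2 ∧ Bad ε₁ M n) X ≤ 2 * δ * X + 2 / 4 ^ I * X + B' := by
  induction I with
  | zero =>
    intro ε₁ _
    refine ⟨1, fun X => ?_⟩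
    have h1 := cnt_le (fun n => n % 3 = 2 ∧ Bad ε₁ M n) X
    have h2 : 0 ≤ 2 * δ * X := by positivity
    simp only [pow_zero, div_one]
    linarith
  | succ I ih =>
    intro ε₁ hε₁
    obtain ⟨B₂, hB₂⟩ := ih ((ε₁ + ε / 4) / 2) (by linarith)
    obtain ⟨n₁, hn₁⟩ := tr_T1 ε₁ ((ε₁ + ε / 4) / 2) (by linarith) (by linarith) 2
    refine ⟨B + (B₂ + (2 * n₁ + 1)), fun X => ?_⟩
    have e1 : cnt (fun n => n % 3 = 2 ∧ Bad ε₁ M n) X ≤
        cnt (fun n => n % 3 = 2 ∧ n % 4 ≠ 0 ∧ Bad ε₁ M n) X +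
        cnt (fun n => n % 3 = 2 ∧ n % 4 = 0 ∧ Bad ε₁ M n) X := by
      refine cnt_or fun n hn => ?_
      by_cases h4 : n % 4 = 0
      · exact Or.inr ⟨hn.1, h4, hn.2⟩
      · exact Or.inl ⟨hn.1, h4, hn.2⟩
    have e2 : cnt (fun n => n % 3 = 2 ∧ n % 4 ≠ 0 ∧ Bad ε₁ M n) X ≤
        cnt (fun v => OO v ∧ Bad (ε / 4) M (3 * v - 1)) X := by
      refine cnt_map (fun n => (n + 1) / 3) ?_ ?_
      · rintro n hn ⟨h1, h2, h3⟩
        refine ⟨⟨by unfold OO; omega, ?_⟩, ?_⟩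
        · have : 3 * ((n + 1) / 3) - 1 = n := by omega
          rw [this]
          exact tr_mono hε₁.le h3
        · rw [abs_le] at hn ⊢
          constructor <;> omega
      · rintro n m ⟨h1, -⟩ ⟨h2, -⟩ h3
        change (n + 1) / 3 = (m + 1) / 3 at h3
        omega
    have e3 : cnt (fun n => n % 3 = 2 ∧ n % 4 = 0 ∧ Bad ε₁ M n) X ≤
        cnt (fun n => n % 3 = 2 ∧ n % 4 = 0 ∧ Bad ((ε₁ + ε / 4) / 2) M (n / 4)) X +
        cnt (fun n => |n| ≤ (n₁ : ℤ)) X := by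
      refine cnt_or fun n hn => ?_
      by_cases hc : |n| ≤ (n₁ : ℤ)
      · exact Or.inr hc
      · left
        refine ⟨hn.1, hn.2.1, ?_⟩
        have h1 := hn₁ M n (by omega) hn.2.2 2 le_rfl
        have h2 : CollatzExp.C^[2] n = n / 4 := by
          rw [Function.iterate_succ_apply, Function.iterate_one]
          have h5 := hn.2.1
          rw [CollatzExp.C_even (y := n) (by omega), CollatzExp.C_even (by omega)]
          omega
        rw [h2] at h1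
        exact h1
    have e4 : cnt (fun n => n % 3 = 2 ∧ n % 4 = 0 ∧ Bad ((ε₁ + ε / 4) / 2) M (n / 4)) X ≤
        cnt (fun n => n % 3 = 2 ∧ Bad ((ε₁ + ε / 4) / 2) M n) (X / 4) := by
      refine cnt_map (fun n => n / 4) ?_ ?_
      · rintro n hn ⟨h1, h2, h3⟩
        refine ⟨⟨by omega, h3⟩, ?_⟩
        rw [abs_le] at hn ⊢
        constructor <;> omega
      · rintro n m ⟨h1, h2, -⟩ ⟨h3, h4, -⟩ h5
        change n / 4 = m / 4 at h5
        omega
    have e5 := tr_cnt_small (fun n => |n| ≤ (n₁ : ℤ)) n₁ X (fun n hn => hn)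
    have e6 := h X
    have e7 := hB₂ (X / 4)
    have e8 := tr_quarter X (2 * δ) (by positivity)
    have e9 := tr_quarter X (2 / 4 ^ I) (by positivity)
    have e10 : 2 / 4 ^ (I + 1) * (X : ℝ) = 2 / 4 ^ I * X / 4 := by
      rw [pow_succ]; field_simp
    have e11 : 0 ≤ δ * X := by positivity
    rw [e10]
    linarith

/-- all integers. -/
lemma tr_all {ε δ : ℝ} {M : ℕ} {B : ℝ} (hε : 0 < ε) (hδ : 0 < δ)
    (h : ∀ X : ℕ, cnt (fun n => n % 3 = 2 ∧ Bad (ε / 2) M n) X ≤ 3 * δ * X + B) (I : ℕ) :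
    ∀ ε₁ : ℝ, ε / 2 < ε₁ → ∃ B' : ℝ, ∀ X : ℕ,
      cnt (Bad ε₁ M) X ≤ 30 * δ * X + 2 / 2 ^ I * X + B' := by
  induction I with
  | zero =>
    intro ε₁ _
    refine ⟨1, fun X => ?_⟩
    have h1 := cnt_le (Bad ε₁ M) X
    have h2 : 0 ≤ 30 * δ * X := by positivity
    simp only [pow_zero, div_one]
    linarith
  | succ I ih =>
    intro ε₁ hε₁
    obtain ⟨B₂, hB₂⟩ := ih ((ε₁ + ε / 2) / 2) (by linarith)
    obtain ⟨n₁, hn₁⟩ := tr_T1 ε₁ ((ε₁ + ε / 2) / 2) (by linarith) (by linarith) 2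
    obtain ⟨n₂, hn₂⟩ := tr_T2 ε₁ (ε / 2) (by linarith) hε₁
    refine ⟨B₂ + 3 * B + (2 * (max n₁ n₂ : ℕ) + 1), fun X => ?_⟩
    set N := max n₁ n₂ with hN
    have hN1 : n₁ ≤ N := le_max_left _ _
    have hN2 : n₂ ≤ N := le_max_right _ _
    have e0 : cnt (Bad ε₁ M) X ≤ cnt (fun n => (N : ℤ) < |n| ∧ Bad ε₁ M n) X +
        cnt (fun n => |n| ≤ (N : ℤ)) X := by
      refine cnt_or fun n hn => ?_
      by_cases hc : |n| ≤ (N : ℤ)
      · exact Or.inr hc
      · exact Or.inl ⟨by omega, hn⟩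
    have e1 : cnt (fun n => (N : ℤ) < |n| ∧ Bad ε₁ M n) X ≤
        cnt (fun n => n % 2 = 0 ∧ (N : ℤ) < |n| ∧ Bad ε₁ M n) X +
        cnt (fun n => n % 2 = 1 ∧ (N : ℤ) < |n| ∧ Bad ε₁ M n) X := by
      refine cnt_or fun n hn => ?_
      rcases Int.emod_two_eq_zero_or_one n with h | h
      · exact Or.inl ⟨h, hn⟩
      · exact Or.inr ⟨h, hn⟩
    have e2 : cnt (fun n => n % 2 = 0 ∧ (N : ℤ) < |n| ∧ Bad ε₁ M n) X ≤
        cnt (Bad ((ε₁ + ε / 2) / 2) M) (X / 2) := by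
      refine cnt_map (fun n => n / 2) ?_ ?_
      · rintro n hn ⟨h1, h2, h3⟩
        refine ⟨?_, ?_⟩
        · have h4 := hn₁ M n (by omega) h3 1 (by norm_num)
          rw [Function.iterate_one, CollatzExp.C_even h1] at h4
          exact h4
        · rw [abs_le] at hn ⊢
          constructor <;> omega
      · rintro n m ⟨h1, -⟩ ⟨h3, -⟩ h5
        change n / 2 = m / 2 at h5
        omega
    have e3 : cnt (fun n => n % 2 = 1 ∧ (N : ℤ) < |n| ∧ Bad ε₁ M n) X ≤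
        cnt (fun n => n % 3 = 2 ∧ Bad (ε / 2) M n) X +
        cnt (fun n => n % 2 = 1 ∧ n % 3 ≠ 2 ∧ (N : ℤ) < |n| ∧ Bad ε₁ M n) X := by
      refine cnt_or fun n hn => ?_
      by_cases h4 : n % 3 = 2
      · exact Or.inl ⟨h4, tr_mono hε₁.le hn.2.2⟩
      · exact Or.inr ⟨hn.1, h4, hn.2⟩
    have e4 : cnt (fun n => n % 2 = 1 ∧ n % 3 ≠ 2 ∧ (N : ℤ) < |n| ∧ Bad ε₁ M n) X ≤
        cnt (fun n => n % 3 = 1 ∧ (N : ℤ) < |n| ∧ Bad ε₁ M n) X +
        cnt (fun n => n % 2 = 1 ∧ n % 3 = 0 ∧ (N : ℤ) < |n| ∧ Bad ε₁ M n) X := by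
      refine cnt_or fun n hn => ?_
      have h3 : n % 3 = 0 ∨ n % 3 = 1 ∨ n % 3 = 2 := by omega
      rcases h3 with h3 | h3 | h3
      · exact Or.inr ⟨hn.1, h3, hn.2.2⟩
      · exact Or.inl ⟨h3, hn.2.2⟩
      · exact absurd h3 hn.2.1
    have e5 : cnt (fun n => n % 3 = 1 ∧ (N : ℤ) < |n| ∧ Bad ε₁ M n) X ≤
        cnt (fun n => n % 3 = 2 ∧ Bad (ε / 2) M n) (2 * X) := by
      refine cnt_map (fun n => 2 * n) ?_ ?_
      · rintro n hn ⟨h1, h2, h3⟩
        refine ⟨⟨by omega, hn₂ M n (by omega) h3⟩, ?_⟩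
        rw [abs_le] at hn ⊢
        constructor <;> omega
      · rintro n m - - h5
        change 2 * n = 2 * m at h5
        omega
    have e6 : cnt (fun n => n % 2 = 1 ∧ n % 3 = 0 ∧ (N : ℤ) < |n| ∧ Bad ε₁ M n) X ≤
        cnt (fun n => n % 3 = 2 ∧ Bad (ε / 2) M n) (2 * X) := by
      refine cnt_map (fun n => (3 * n + 1) / 2) ?_ ?_
      · rintro n hn ⟨h1, h2, h3, h4⟩
        refine ⟨⟨by omega, ?_⟩, ?_⟩
        · have h5 := hn₁ M n (by omega) h4 2 le_rfl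
          rw [Function.iterate_succ_apply, Function.iterate_one, CollatzExp.C_odd h1,
            CollatzExp.C_even (by omega)] at h5
          exact tr_mono (by linarith) h5
        · rw [abs_le] at hn ⊢
          constructor <;> omega
      · rintro n m ⟨h1, -⟩ ⟨h2, -⟩ h5
        change (3 * n + 1) / 2 = (3 * m + 1) / 2 at h5
        omega
    have e7 := h X
    have e8 := h (2 * X)
    have e9 := tr_cnt_small (fun n => |n| ≤ (N : ℤ)) N X (fun n hn => hn)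
    have e10 := hB₂ (X / 2)
    have e11 := tr_half X (30 * δ) (by positivity)
    have e12 := tr_half X (2 / 2 ^ I) (by positivity)
    have e13 : 2 / 2 ^ (I + 1) * (X : ℝ) = 2 / 2 ^ I * X / 2 := by
      rw [pow_succ]; field_simp
    rw [e13]
    push_cast at e8 ⊢
    linarith

theorem transfer_proof : Stmt_transfer := by
  intro ε δ M B hε hδ h
  obtain ⟨I, hI⟩ : ∃ I : ℕ, (1 / 4 : ℝ) ^ I < δ / 2 :=
    exists_pow_lt_of_lt_one (by positivity) (by norm_num)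
  have hI' : 2 / (4 : ℝ) ^ I ≤ δ := by
    rw [one_div, inv_pow] at hI
    rw [div_eq_mul_inv]; linarith
  obtain ⟨B₁, hB₁⟩ := tr_two hε hδ h I (ε / 2) (by linarith)
  have h2 : ∀ X : ℕ, cnt (fun n => n % 3 = 2 ∧ Bad (ε / 2) M n) X ≤ 3 * δ * X + B₁ := by
    intro X
    have h3 := hB₁ X
    have h4 : 2 / (4 : ℝ) ^ I * X ≤ δ * X := mul_le_mul_of_nonneg_right hI' (Nat.cast_nonneg _)
    linarith
  obtain ⟨J, hJ⟩ : ∃ J : ℕ, (1 / 2 : ℝ) ^ J < δ / 2 :=
    exists_pow_lt_of_lt_one (by positivity) (by norm_num)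
  have hJ' : 2 / (2 : ℝ) ^ J ≤ δ := by
    rw [one_div, inv_pow] at hJ
    rw [div_eq_mul_inv]; linarith
  obtain ⟨B₂, hB₂⟩ := tr_all hε hδ h2 J ε (by linarith)
  refine ⟨B₂, fun X => ?_⟩
  have h3 := hB₂ X
  have h4 : 2 / (2 : ℝ) ^ J * X ≤ δ * X := mul_le_mul_of_nonneg_right hJ' (Nat.cast_nonneg _)
  have h5 : 0 ≤ δ * X := by positivity
  linarith

end CollatzTime
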