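import Pool.Agent.CollatzTime.Defs

set_option autoImplicit false

/-!
# The indicator function of the bad points does not increase along regular words
-/

namespace CollatzTime

open CollatzLin CollatzOne Finset Filter Topology

/-! ### One step of the Collatz map -/

lemma C_ne_zero {n : ℤ} (h : n ≠ 0) : CollatzExp.C n ≠ 0 := by
  rcases Int.emod_two_eq_zero_or_one n with h1 | h1
  · rw [CollatzExp.C_even h1]; omega
  · rw [CollatzExp.C_odd h1]; omega

lemma C_iter_ne_zero {n : ℤ} (h : n ≠ 0) (k : ℕ) : CollatzExp.C^[k] n ≠ 0 := by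
  induction k with
  | zero => simpa using h
  | succ k ih => rw [Function.iterate_succ_apply']; exact C_ne_zero ih

lemma log_close {a b K : ℝ} (ha : 0 < a) (hb : 0 < b) (hK : 0 < K) (h1 : a ≤ K * b)
    (h2 : b ≤ K * a) : |Real.log a - Real.log b| ≤ Real.log K := by
  have h3 := Real.log_le_log ha h1
  have h4 := Real.log_le_log hb h2
  rw [Real.log_mul hK.ne' hb.ne'] at h3
  rw [Real.log_mul hK.ne' ha.ne'] at h4
  rw [abs_le]
  constructor <;> linarith

lemma log_C_step {n : ℤ} (h : n ≠ 0) :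
    |Real.log (|((CollatzExp.C n : ℤ) : ℝ)|) - Real.log (|(n : ℝ)|)| ≤ Real.log 4 := by
  have hC := C_ne_zero h
  have hn0 : 0 < |(n : ℝ)| := abs_pos.2 (by exact_mod_cast h)
  have hC0 : 0 < |((CollatzExp.C n : ℤ) : ℝ)| := abs_pos.2 (by exact_mod_cast hC)
  have h1 : |CollatzExp.C n| ≤ 4 * |n| ∧ |n| ≤ 4 * |CollatzExp.C n| := by
    rcases Int.emod_two_eq_zero_or_one n with h1 | h1
    · rw [CollatzExp.C_even h1]
      rcases abs_cases n with ⟨h2, h3⟩ | ⟨h2, h3⟩ <;>
        rcases abs_cases (n / 2) with ⟨h4, h5⟩ | ⟨h4, h5⟩ <;> rw [h2, h4] <;> omega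
    · rw [CollatzExp.C_odd h1]
      rcases abs_cases n with ⟨h2, h3⟩ | ⟨h2, h3⟩ <;>
        rcases abs_cases (3 * n + 1) with ⟨h4, h5⟩ | ⟨h4, h5⟩ <;> rw [h2, h4] <;> omega
  have h2 : |((CollatzExp.C n : ℤ) : ℝ)| ≤ 4 * |(n : ℝ)| := by exact_mod_cast h1.1
  have h3 : |(n : ℝ)| ≤ 4 * |((CollatzExp.C n : ℤ) : ℝ)| := by exact_mod_cast h1.2
  exact log_close hC0 hn0 (by norm_num) h2 h3

/-! ### The constant `kap` -/

lemma log_four_thirds : Real.log (4 / 3) = 2 * Real.log 2 - Real.log 3 := by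
  rw [Real.log_div (by norm_num) (by norm_num), show (4 : ℝ) = 2 ^ 2 by norm_num, Real.log_pow]
  norm_num

lemma log_four_thirds_ge : (1 : ℝ) / 4 ≤ Real.log (4 / 3) := by
  have := Real.one_sub_inv_le_log_of_pos (show (0 : ℝ) < 4 / 3 by norm_num)
  norm_num at this ⊢
  linarith

lemma log_four_thirds_le : Real.log (4 / 3) ≤ (1 : ℝ) / 3 := by
  have := Real.log_le_sub_one_of_pos (show (0 : ℝ) < 4 / 3 by norm_num)
  norm_num at this ⊢
  linarith

lemma kap_pos : 0 < kap := by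
  have := log_four_thirds_ge
  unfold kap
  positivity

lemma div_kap (x : ℝ) : x / kap = x * (Real.log (4 / 3) / 3) := by
  unfold kap
  rw [div_div_eq_mul_div]
  ring

/-! ### The deviation -/

lemma Dev_zero (n : ℤ) : Dev 0 n = 0 := by
  unfold Dev
  simp

lemma Dev_add (j k : ℕ) (n : ℤ) : Dev (j + k) n = Dev j n + Dev k (CollatzExp.C^[j] n) := by
  unfold Dev
  rw [show j + k = k + j by omega, Function.iterate_add_apply]
  push_cast
  ring

lemma abs_Dev_one {n : ℤ} (h : n ≠ 0) : |Dev 1 n| ≤ 2 := by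
  have h1 := log_C_step h
  have h2 : Real.log 4 = 2 * Real.log 2 := by
    rw [show (4 : ℝ) = 2 ^ 2 by norm_num, Real.log_pow]
    norm_num
  have h3 := Real.log_two_lt_d9
  have h4 := log_four_thirds_ge
  have h5 := log_four_thirds_le
  unfold Dev
  rw [div_kap, Function.iterate_one]
  rw [abs_le] at h1 ⊢
  push_cast
  constructor <;> nlinarith [h1.1, h1.2]

lemma abs_Dev_le {n : ℤ} (h : n ≠ 0) (k : ℕ) : |Dev k n| ≤ 2 * k := by
  induction k with
  | zero => rw [Dev_zero]; simp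
  | succ k ih =>
    rw [Dev_add]
    have h1 := abs_Dev_one (C_iter_ne_zero h k)
    have h2 := abs_add_le (Dev k n) (Dev 1 (CollatzExp.C^[k] n))
    push_cast
    linarith

/-! ### Trajectories along words -/

lemma iter_letter {e : ℕ} (he : 1 ≤ e) {v : ℤ} (h : v1 e v) :
    CollatzExp.C^[e + 1] (3 * c1 e v - 1) = 3 * v - 1 := by
  have h1 := par_eq h
  have hc : CollatzExp.child e (3 * v - 1) = 3 * c1 e v - 1 := by
    unfold CollatzExp.child
    rw [h1]
    omega
  have hv : CollatzExp.valid e (3 * v - 1) := by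
    unfold CollatzExp.valid
    rw [h1]
    omega
  have h2 := CollatzExp.C_iter_child_full he hv
  rwa [hc] at h2

lemma iter_word {W : List ℕ} (hW : ∀ e ∈ W, 1 ≤ e) {v : ℤ} (h : vd W v) :
    CollatzExp.C^[js W + W.length] (3 * ch W v - 1) = 3 * v - 1 := by
  induction W generalizing v with
  | nil => simp [js_nil, ch_nil]
  | cons e W ih =>
    obtain ⟨h1, h2⟩ := vd_cons.1 h
    rw [ch_cons h, js_cons, List.length_cons,
      show e + js W + (W.length + 1) = (e + 1) + (js W + W.length) by omega,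
      Function.iterate_add_apply, ih (fun x hx => hW x (by simp [hx])) h2]
    exact iter_letter (hW e (by simp)) h1

/-- Size of a descendant. -/
lemma log_size {V : List ℕ} {v : ℤ} (h : vd V v) {D : ℝ} (hD : dst V ≤ D)
    (hv : 2 * D ≤ |(v : ℝ)|) (h1 : 2 ≤ ht V * |(v : ℝ)|) :
    |Real.log (|((3 * ch V v - 1 : ℤ) : ℝ)|) - (Real.log (ht V) + Real.log (|(v : ℝ)|))| ≤ 3 := by
  obtain ⟨lo, hi⟩ := ch_between h hD
  have h0 := ht_pos V
  have hD1 := one_le_dst V
  have hv0 : 0 < |(v : ℝ)| := by linarith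
  have lo' : ht V * |(v : ℝ)| / 2 ≤ |(ch V v : ℝ)| := by
    refine le_trans ?_ lo
    have : ht V * |(v : ℝ)| / 2 = ht V * (|(v : ℝ)| / 2) := by ring
    rw [this]
    exact mul_le_mul_of_nonneg_left (by linarith) h0.le
  have hi' : |(ch V v : ℝ)| ≤ 3 / 2 * (ht V * |(v : ℝ)|) := by
    refine le_trans hi ?_
    have : 3 / 2 * (ht V * |(v : ℝ)|) = ht V * (3 / 2 * |(v : ℝ)|) := by ring
    rw [this]
    exact mul_le_mul_of_nonneg_left (by linarith) h0.le
  have h2 : |((3 * ch V v - 1 : ℤ) : ℝ)| ≤ 3 * |(ch V v : ℝ)| + 1 := by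
    push_cast
    have := abs_sub (3 * (ch V v : ℝ)) 1
    rw [abs_mul, abs_of_pos (show (0 : ℝ) < 3 by norm_num), abs_one] at this
    exact this
  have h3 : 3 * |(ch V v : ℝ)| - 1 ≤ |((3 * ch V v - 1 : ℤ) : ℝ)| := by
    push_cast
    have := abs_sub_abs_le_abs_sub (3 * (ch V v : ℝ)) 1
    rw [abs_mul, abs_of_pos (show (0 : ℝ) < 3 by norm_num), abs_one] at this
    exact this
  have hb : 0 < ht V * |(v : ℝ)| := by positivity
  have h4 : |Real.log (|((3 * ch V v - 1 : ℤ) : ℝ)|) - Real.log (ht V * |(v : ℝ)|)| ≤ Real.log 8 :=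
    log_close (by linarith) hb (by norm_num) (by linarith) (by linarith)
  rw [Real.log_mul h0.ne' hv0.ne'] at h4
  have h5 : Real.log 8 = 3 * Real.log 2 := by
    rw [show (8 : ℝ) = 2 ^ 3 by norm_num, Real.log_pow]
    norm_num
  have h6 := Real.log_two_lt_d9
  linarith

lemma log_ht (W : List ℕ) : Real.log (ht W) = js W * Real.log 2 - W.length * Real.log 3 := by
  unfold ht
  rw [Real.log_div (by positivity) (by positivity), Real.log_pow, Real.log_pow]

/-- The data of a regular word at a large point. -/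
structure Ctx (n Δ : ℕ) (W : List ℕ) (v : ℤ) (D : ℝ) : Prop where
  pos : ∀ e ∈ W, 1 ≤ e
  len : W.length = n
  reg : Reg Δ W
  dst_le : dst W ≤ D
  valid : vd W v
  big : 2 * D ≤ |(v : ℝ)|
  big' : 2 * 2 ^ Δ ≤ |(v : ℝ)|

lemma Ctx.reg' {n Δ : ℕ} {W : List ℕ} {v : ℤ} {D : ℝ} (hc : Ctx n Δ W v D) {V U : List ℕ}
    (h : W = V ++ U) : js V ≤ 2 * V.length + Δ ∧ 2 * V.length ≤ js V + Δ := by
  have h1 := hc.reg V.length (by rw [h, List.length_append]; omega)
  rw [h, List.take_left'] at h1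
  · exact h1
  · rfl

lemma Ctx.size {n Δ : ℕ} {W : List ℕ} {v : ℤ} {D : ℝ} (hc : Ctx n Δ W v D) {V U : List ℕ}
    (h : W = V ++ U) :
    |Real.log (|((3 * ch V v - 1 : ℤ) : ℝ)|) - (Real.log (ht V) + Real.log (|(v : ℝ)|))| ≤ 3 := by
  have h1 := hc.reg' h
  have h2 := hc.valid
  rw [h, vd_append] at h2
  have h3 := hc.dst_le
  rw [h] at h3
  refine log_size h2.1 ((dst_le_append V U).trans h3) hc.big ?_
  have h4 : 1 ≤ 2 ^ Δ * ht V := by
    unfold ht
    rw [← mul_div_assoc, le_div_iff₀ (by positivity), one_mul, ← pow_add]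
    calc (3 : ℝ) ^ V.length ≤ 4 ^ V.length := pow_le_pow_left₀ (by norm_num) (by norm_num) _
      _ = 2 ^ (2 * V.length) := by rw [pow_mul]; norm_num
      _ ≤ 2 ^ (Δ + js V) := pow_le_pow_right₀ (by norm_num) (by omega)
  have h5 := ht_pos V
  have h6 := hc.big'
  calc (2 : ℝ) = 2 * 1 := by ring
    _ ≤ 2 * (2 ^ Δ * ht V) := by linarith
    _ = ht V * (2 * 2 ^ Δ) := by ring
    _ ≤ ht V * |(v : ℝ)| := mul_le_mul_of_nonneg_left h6 h5.le

/-- The deviation at the end of a suffix. -/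
lemma Ctx.dev {n Δ : ℕ} {W : List ℕ} {v : ℤ} {D : ℝ} (hc : Ctx n Δ W v D) {V U : List ℕ}
    (h : W = V ++ U) : |Dev (js U + U.length) (3 * ch W v - 1)| ≤ 2 * Δ + 6 := by
  have h1 := hc.size h
  have h2 := hc.size (show W = W ++ [] by simp)
  have h3 := hc.reg' h
  have h4 := hc.reg' (show W = W ++ [] by simp)
  have hvd := hc.valid
  rw [h, vd_append] at hvd
  have hpos : ∀ e ∈ U, 1 ≤ e := fun e he => hc.pos e (by rw [h]; simp [he])
  have h5 := iter_word hpos hvd.2
  rw [← ch_append (vd_append.2 hvd), ← h] at h5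
  have h6 : Real.log (ht W) = Real.log (ht V) + Real.log (ht U) := by
    rw [h, ht_append, Real.log_mul (ht_pos V).ne' (ht_pos U).ne']
  rw [h6] at h2
  have h7 := log_ht U
  have h8 : js W = js V + js U := by rw [h, js_append]
  have h9 : W.length = V.length + U.length := by rw [h, List.length_append]
  -- the linear part
  have h10 : (js U : ℝ) ≤ 2 * U.length + 2 * Δ := by
    have : js U ≤ 2 * U.length + 2 * Δ := by omega
    exact_mod_cast this
  have h11 : 2 * (U.length : ℝ) ≤ js U + 2 * Δ := by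
    have : 2 * U.length ≤ js U + 2 * Δ := by omega
    exact_mod_cast this
  have h12 : (((js U + U.length : ℕ) : ℝ)) * (Real.log (4 / 3) / 3) - Real.log (ht U) =
      -((js U - 2 * U.length) * ((Real.log 2 + Real.log 3) / 3)) := by
    rw [h7, log_four_thirds]
    push_cast
    ring
  have hq0 : 0 ≤ (Real.log 2 + Real.log 3) / 3 := by
    have := Real.log_nonneg (show (1 : ℝ) ≤ 2 by norm_num)
    have := Real.log_nonneg (show (1 : ℝ) ≤ 3 by norm_num)
    positivity
  have hq1 : (Real.log 2 + Real.log 3) / 3 ≤ 1 := by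
    have := Real.log_two_lt_d9
    have := Real.log_le_sub_one_of_pos (show (0 : ℝ) < 3 by norm_num)
    linarith
  have hΔ : (0 : ℝ) ≤ Δ := Nat.cast_nonneg _
  have h13 : |(((js U + U.length : ℕ) : ℝ)) * (Real.log (4 / 3) / 3) - Real.log (ht U)| ≤ 2 * Δ := by
    rw [h12, abs_neg, abs_mul, abs_of_nonneg hq0]
    have h14 : |(js U : ℝ) - 2 * U.length| ≤ 2 * Δ := by
      rw [abs_le]
      constructor <;> linarith
    calc |(js U : ℝ) - 2 * U.length| * ((Real.log 2 + Real.log 3) / 3) ≤ (2 * Δ) * 1 :=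
          mul_le_mul h14 hq1 hq0 (by linarith)
      _ = 2 * Δ := by ring
  unfold Dev
  rw [h5, div_kap]
  rw [abs_le] at h1 h2 h13 ⊢
  constructor
  · linarith [h1.1, h2.2, h13.1]
  · linarith [h1.2, h2.1, h13.2]

/-- Every time up to the end of the word is close to the end of a suffix. -/
lemma Ctx.split {n Δ : ℕ} {W : List ℕ} {v : ℤ} {D : ℝ} (hc : Ctx n Δ W v D) (U : List ℕ) :
    ∀ V : List ℕ, W = V ++ U → ∀ k ≤ js U + U.length, ∃ V' U' : List ℕ, W = V' ++ U' ∧
      js U' + U'.length ≤ k ∧ k ≤ js U' + U'.length + (2 * Δ + 3) := by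
  induction U with
  | nil =>
    intro V h k hk
    refine ⟨V, [], h, ?_, ?_⟩ <;> simp [js_nil] at hk ⊢
    omega
  | cons e U ih =>
    intro V h k hk
    have h' : W = (V ++ [e]) ++ U := by rw [h]; simp
    by_cases h1 : k ≤ js U + U.length
    · exact ih _ h' k h1
    · refine ⟨V ++ [e], U, h', by omega, ?_⟩
      have h2 := hc.reg' h
      have h3 := hc.reg' h'
      rw [js_append, js_cons, js_nil, List.length_append, List.length_singleton] at h3
      rw [js_cons, List.length_cons] at hk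
      omega

lemma Ctx.dev_le {n Δ : ℕ} {W : List ℕ} {v : ℤ} {D : ℝ} (hc : Ctx n Δ W v D) {k : ℕ}
    (hk : k ≤ js W + W.length) : |Dev k (3 * ch W v - 1)| ≤ 6 * Δ + 12 := by
  obtain ⟨V, U, h, h1, h2⟩ := hc.split W [] (by simp) k hk
  obtain ⟨m, rfl⟩ : ∃ m, k = js U + U.length + m := ⟨k - (js U + U.length), by omega⟩
  have h3 := hc.dev h
  have hne : (3 * ch W v - 1 : ℤ) ≠ 0 := by omega
  have h4 := abs_Dev_le (C_iter_ne_zero hne (js U + U.length)) m
  rw [Dev_add]
  have h5 := abs_add_le (Dev (js U + U.length) (3 * ch W v - 1))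
    (Dev m (CollatzExp.C^[js U + U.length] (3 * ch W v - 1)))
  have h6 : (m : ℝ) ≤ 2 * Δ + 3 := by
    have : m ≤ 2 * Δ + 3 := by omega
    exact_mod_cast this
  linarith

/-- The logarithm grows along the word. -/
lemma Ctx.growth {n Δ : ℕ} {W : List ℕ} {v : ℤ} {D : ℝ} (hc : Ctx n Δ W v D)
    (hn : 400 ≤ n) (hΔ : 20 * (Δ : ℝ) ≤ n) :
    Real.log (|((3 * v - 1 : ℤ) : ℝ)|) + n / 5 ≤ Real.log (|((3 * ch W v - 1 : ℤ) : ℝ)|) := by
  have h1 := hc.size (show W = W ++ [] by simp)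
  have h2 := hc.size (show W = [] ++ W by simp)
  rw [ch_nil, ht_nil, Real.log_one] at h2
  rw [abs_le] at h1 h2
  have h3 := log_ht W
  have h4 := hc.reg' (show W = W ++ [] by simp)
  rw [hc.len] at h3 h4
  have h5 : 2 * (n : ℝ) - Δ ≤ js W := by
    have : 2 * (n : ℝ) ≤ js W + Δ := by exact_mod_cast h4.2
    linarith
  have h6 := log_four_thirds_ge
  have h7 := log_four_thirds
  have h8 := Real.log_two_lt_d9
  have h9 := Real.log_two_gt_d9
  have h10 : (400 : ℝ) ≤ n := by exact_mod_cast hn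
  have h11 : (2 * (n : ℝ) - Δ) * Real.log 2 ≤ js W * Real.log 2 :=
    mul_le_mul_of_nonneg_right h5 (by linarith)
  have h12 : (n : ℝ) * (1 / 4) ≤ n * Real.log (4 / 3) := mul_le_mul_of_nonneg_left h6 (by linarith)
  have hΔ0 : (0 : ℝ) ≤ Δ := Nat.cast_nonneg _
  have h13 : (Δ : ℝ) * Real.log 2 ≤ Δ * (7 / 10) := mul_le_mul_of_nonneg_left (by linarith) hΔ0
  rw [h7] at h12
  nlinarith [h1.1, h2.2]

/-- The context from the hypotheses of `AdmC.mono`. -/
lemma ctx_of {n Δ L : ℕ} {W : List ℕ} {v : ℤ} (hn : 4 ≤ n) (hΔn : Δ ≤ n) (hL : 4 * n ≤ L)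
    (hpos : ∀ e ∈ W, 1 ≤ e) (hlen : W.length = n) (hreg : Reg Δ W) (hdst : dst W ≤ 2 ^ (L / 8))
    (hvd : vd W v) (hbig : (2 : ℤ) ^ L ≤ |ch W v|) : Ctx n Δ W v (2 ^ (L / 8)) := by
  have h1 := (ch_between hvd hdst).2
  have h2 : (2 : ℝ) ^ L ≤ |(ch W v : ℝ)| := by exact_mod_cast hbig
  have h3 : ht W ≤ 2 ^ (2 * n) := by
    have h4 := (hreg W.length le_rfl).1
    rw [List.take_length, hlen] at h4
    unfold ht
    rw [hlen, div_le_iff₀ (by positivity)]
    calc (2 : ℝ) ^ js W ≤ 2 ^ (2 * n + n) := pow_le_pow_right₀ (by norm_num) (by omega)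
      _ = 2 ^ (2 * n) * 2 ^ n := pow_add _ _ _
      _ ≤ 2 ^ (2 * n) * 3 ^ n := by
        refine mul_le_mul_of_nonneg_left ?_ (by positivity)
        exact pow_le_pow_left₀ (by norm_num) (by norm_num) _
  have h4 : (2 : ℝ) ^ (L - 2 * n) ≤ |(v : ℝ)| + 2 ^ (L / 8) := by
    have h5 : (2 : ℝ) ^ L = 2 ^ (2 * n) * 2 ^ (L - 2 * n) := by
      rw [← pow_add]
      congr 1
      omega
    have h6 : (0 : ℝ) ≤ |(v : ℝ)| + 2 ^ (L / 8) := by positivity
    have h7 : (2 : ℝ) ^ (2 * n) * 2 ^ (L - 2 * n) ≤ 2 ^ (2 * n) * (|(v : ℝ)| + 2 ^ (L / 8)) := by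
      rw [← h5]
      exact h2.trans (h1.trans (mul_le_mul_of_nonneg_right h3 h6))
    exact le_of_mul_le_mul_left h7 (by positivity)
  have h5 : (2 : ℝ) ^ (L - 2 * n) = 2 * 2 ^ (L - 2 * n - 1) := by
    rw [← pow_succ']
    congr 1
    omega
  have h6 : (2 : ℝ) ^ (L / 8) ≤ 2 ^ (L - 2 * n - 1) := pow_le_pow_right₀ (by norm_num) (by omega)
  have h7 : (2 : ℝ) ^ (L - 2 * n - 1) ≤ |(v : ℝ)| := by linarith
  refine ⟨hpos, hlen, hreg, hdst, hvd, ?_, ?_⟩
  · refine le_trans ?_ h7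
    rw [← pow_succ']
    exact pow_le_pow_right₀ (by norm_num) (by omega)
  · refine le_trans ?_ h7
    rw [← pow_succ']
    exact pow_le_pow_right₀ (by norm_num) (by omega)

theorem adm_proof : Stmt_adm := by
  intro ε hε
  obtain ⟨N, hN⟩ := exists_nat_ge (120 / ε)
  refine ⟨min (ε / 60) (1 / 20), max N 400, by positivity, fun M => ?_⟩
  refine ⟨fun v => ?_, fun v => ?_, ?_⟩
  · unfold bf; split_ifs <;> norm_num
  · unfold bf; split_ifs <;> norm_num
  intro n Δ L W v hn hΔ hΔn hL hpos hlen hreg hdst _ hvd hbig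
  have hn1 : N ≤ n := (le_max_left _ _).trans hn
  have hn2 : 400 ≤ n := (le_max_right _ _).trans hn
  have hn2' : (400 : ℝ) ≤ n := by exact_mod_cast hn2
  have hn1' : 120 / ε ≤ (n : ℝ) := hN.trans (by exact_mod_cast hn1)
  have hn3 : 120 ≤ ε * n := by
    rw [div_le_iff₀ hε] at hn1'
    linarith
  have hΔ1 : (Δ : ℝ) ≤ ε / 60 * n :=
    hΔ.trans (mul_le_mul_of_nonneg_right (min_le_left _ _) (by linarith))
  have hΔ2 : (Δ : ℝ) ≤ 1 / 20 * n :=
    hΔ.trans (mul_le_mul_of_nonneg_right (min_le_right _ _) (by linarith))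
  have hc := ctx_of (by omega) hΔn hL hpos hlen hreg hdst hvd hbig
  have hgr := hc.growth hn2 (by linarith)
  -- lower bound for the logarithm of the child
  have hlogw : 2 * (n : ℝ) ≤ Real.log (|((3 * ch W v - 1 : ℤ) : ℝ)|) := by
    have h1 : (2 : ℤ) ^ L ≤ |3 * ch W v - 1| := by
      have : (1 : ℤ) ≤ 2 ^ L := one_le_pow₀ (by norm_num)
      rcases abs_cases (ch W v) with ⟨h4, h5⟩ | ⟨h4, h5⟩ <;>
        rcases abs_cases (3 * ch W v - 1) with ⟨h6, h7⟩ | ⟨h6, h7⟩ <;> rw [h4] at hbig <;>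
        rw [h6] <;> omega
    have h2 : (2 : ℝ) ^ L ≤ |((3 * ch W v - 1 : ℤ) : ℝ)| := by exact_mod_cast h1
    have h3 := Real.log_le_log (by positivity) h2
    rw [Real.log_pow] at h3
    have h4 := Real.log_two_gt_d9
    have h5 : (4 : ℝ) * n ≤ L := by exact_mod_cast hL
    have h6 : (4 : ℝ) * n * (1 / 2) ≤ L * Real.log 2 :=
      mul_le_mul h5 (by linarith) (by norm_num) (by positivity)
    linarith
  have key : Bad ε M (3 * ch W v - 1) → Bad ε M (3 * v - 1) := by
    rintro ⟨k, hk1, hk2⟩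
    have hk3 : js W + W.length < k := by
      by_contra hcon
      push Not at hcon
      have h1 := hc.dev_le hcon
      have h2 : ε * (2 * (n : ℝ)) ≤ ε * Real.log (|((3 * ch W v - 1 : ℤ) : ℝ)|) :=
        mul_le_mul_of_nonneg_left hlogw hε.le
      nlinarith
    obtain ⟨m, rfl⟩ : ∃ m, k = js W + W.length + m := ⟨k - (js W + W.length), by omega⟩
    have hit := iter_word hpos hvd
    refine ⟨m, fun j hj => ?_, ?_⟩
    · have h1 := hk1 (j + (js W + W.length)) (by omega)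
      rwa [Function.iterate_add_apply, hit] at h1
    · rw [Dev_add, hit] at hk2
      have h1 := hc.dev_le (le_refl (js W + W.length))
      have h2 := abs_add_le (Dev (js W + W.length) (3 * ch W v - 1)) (Dev m (3 * v - 1))
      have h3 : ε * (Real.log (|((3 * v - 1 : ℤ) : ℝ)|) + n / 5) ≤
          ε * Real.log (|((3 * ch W v - 1 : ℤ) : ℝ)|) := mul_le_mul_of_nonneg_left hgr hε.le
      nlinarith
  unfold bf
  by_cases h : Bad ε M (3 * ch W v - 1)
  · rw [if_pos h, if_pos (key h)]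
  · rw [if_neg h]
    split_ifs <;> norm_num

end CollatzTime
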