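import Pool.Agent.CollatzTime.SplitC
import Pool.Agent.CollatzLin.Start

set_option autoImplicit false

/-!
# The mass of a dyadic window of `a` is controlled by the masses of `a` in the lower windows
-/

namespace CollatzTime

open CollatzLin CollatzOne Finset Filter Topology

/-! ### Geometry of the ancestors -/

lemma start_arith {L n₁ N Δ ℓ A n : ℕ} (hL : 10000 ≤ L) (hn₁ : n₁ = L / 8) (hN : N = L / 16)
    (hΔ : Δ ≤ L / 1000) (hℓ : ℓ = L / 32) (hA : A = L - sh (n₁ + N) - Δ - 3)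
    (hn : n ∈ Ioc n₁ (n₁ + N)) :
    sh n + Δ + 3 + A ≤ L ∧ L + 2 + Δ - sh n ≤ A + ℓ ∧ sh n ≤ L / 4 := by
  rw [mem_Ioc] at hn
  have h1 := twelve_sh (n₁ + N)
  have h2 := sh_mono hn.2
  have h3 := sh_mono hn.1.le
  have h4 := sh_add_lt n₁ N
  subst hn₁ hN hℓ hA
  omega

lemma start_geom {L n₁ N Δ ℓ A n E : ℕ} (hL : 10000 ≤ L) (hn₁ : n₁ = L / 8) (hN : N = L / 16)
    (hΔ : Δ ≤ L / 1000) (hℓ : ℓ = L / 32) (hA : A = L - sh (n₁ + N) - Δ - 3)
    (hn : n ∈ Ioc n₁ (n₁ + N)) {W : List ℕ} (hW : W ∈ typ E n Δ L) {v : ℤ} (hvO : OO v)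
    (hv : vd W v) (hc : ch W v ∈ win L (L + 1)) :
    v ∈ win A (A + ℓ) ∧ ∀ i, v ∈ win i (i + 1) → W ∈ hw E n (2 ^ L / 2 ^ (i + 2)) := by
  obtain ⟨k1, k2, k3⟩ := start_arith hL hn₁ hN hΔ hℓ hA hn
  have hΔL : Δ ≤ L / 1000 := hΔ
  have hD : dst W ≤ 2 ^ (L / 8) := (mem_typ.1 hW).2.2.2
  obtain ⟨g1, g2⟩ := ch_between hv hD
  obtain ⟨g3, g4⟩ := win_real hc
  have g5 := ht_typ_lt hW
  have g6 := le_ht_typ hW
  have h0 := ht_pos W
  have hD0 : (0 : ℝ) < 2 ^ (L / 8) := by positivity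
  -- the lower bound
  have low : (2 : ℝ) ^ (L - sh n - Δ - 2) ≤ |(v : ℝ)| := by
    by_contra hcon
    push Not at hcon
    have e1 : (2 : ℝ) ^ (L / 8) ≤ 2 ^ (L - sh n - Δ - 2) := pow_le_pow_right₀ (by norm_num) (by omega)
    have e2 : |(v : ℝ)| + 2 ^ (L / 8) < 2 ^ (L - sh n - Δ - 2 + 1) := by
      rw [pow_succ]; linarith
    have e3 : ht W * (|(v : ℝ)| + 2 ^ (L / 8)) < 2 ^ (sh n + 1 + Δ) * 2 ^ (L - sh n - Δ - 2 + 1) :=
      mul_lt_mul g5 e2.le (by positivity) (by positivity)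
    rw [← pow_add, show sh n + 1 + Δ + (L - sh n - Δ - 2 + 1) = L by omega] at e3
    linarith
  have up : |(v : ℝ)| < 2 ^ (L + 2 + Δ - sh n) := by
    by_contra hcon
    push Not at hcon
    have e1 : (2 : ℝ) ^ (L / 8) ≤ 2 ^ (L + 1 + Δ - sh n) := pow_le_pow_right₀ (by norm_num) (by omega)
    have e2 : (2 : ℝ) ^ (L + 2 + Δ - sh n) = 2 ^ (L + 1 + Δ - sh n) * 2 := by
      rw [← pow_succ]; congr 1; omega
    have e3 : (2 : ℝ) ^ (L + 1 + Δ - sh n) ≤ |(v : ℝ)| - 2 ^ (L / 8) := by linarith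
    have e4 : (2 : ℝ) ^ sh n * 2 ^ (L + 1 + Δ - sh n) ≤ 2 ^ Δ * ht W * (|(v : ℝ)| - 2 ^ (L / 8)) :=
      mul_le_mul g6 e3 (by positivity) (by positivity)
    have e5 : 2 ^ Δ * ht W * (|(v : ℝ)| - 2 ^ (L / 8)) < (2 : ℝ) ^ Δ * 2 ^ (L + 1) := by
      rw [mul_assoc]
      exact mul_lt_mul_of_pos_left (lt_of_le_of_lt g1 g4) (by positivity)
    rw [← pow_add] at e4 e5
    rw [show sh n + (L + 1 + Δ - sh n) = Δ + (L + 1) by omega] at e4
    linarith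
  have hvA : v ∈ win A (A + ℓ) := by
    rw [mem_win]
    refine ⟨?_, ?_, hvO⟩
    · have : (2 : ℝ) ^ A ≤ |(v : ℝ)| := (pow_le_pow_right₀ (by norm_num) (by omega)).trans low
      exact_mod_cast this
    · have : |(v : ℝ)| < 2 ^ (A + ℓ) := lt_of_lt_of_le up (pow_le_pow_right₀ (by norm_num) (by omega))
      exact_mod_cast this
  refine ⟨hvA, fun i hi => ?_⟩
  obtain ⟨f1, f2⟩ := win_real hi
  have hi0 : L - sh n - Δ - 2 < i + 1 := by
    have : (2 : ℝ) ^ (L - sh n - Δ - 2) < 2 ^ (i + 1) := lt_of_le_of_lt low f2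
    exact (pow_lt_pow_iff_right₀ (show (1 : ℝ) < 2 by norm_num)).1 this
  have hDi : (2 : ℝ) ^ (L / 8) * 2 ≤ 2 ^ i := by
    rw [← pow_succ]
    exact pow_le_pow_right₀ (by norm_num) (by omega)
  classical
  unfold hw
  rw [mem_filter]
  refine ⟨typ_subset _ _ _ _ hW, ?_, ?_⟩
  · rw [div_le_iff₀ (by positivity)]
    have e1 : |(v : ℝ)| + 2 ^ (L / 8) ≤ 2 ^ (i + 2) := by
      have : (2 : ℝ) ^ (i + 2) = 2 ^ (i + 1) * 2 := by rw [← pow_succ]
      have : (2 : ℝ) ^ (i + 1) = 2 ^ i * 2 := by rw [← pow_succ]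
      linarith
    calc (2 : ℝ) ^ L ≤ |(ch W v : ℝ)| := g3
      _ ≤ ht W * (|(v : ℝ)| + 2 ^ (L / 8)) := g2
      _ ≤ ht W * 2 ^ (i + 2) := mul_le_mul_of_nonneg_left e1 h0.le
  · have e1 : (2 : ℝ) ^ i / 2 ≤ |(v : ℝ)| - 2 ^ (L / 8) := by linarith
    have e2 : ht W * (2 ^ i / 2) < 2 ^ (L + 1) :=
      lt_of_le_of_lt (mul_le_mul_of_nonneg_left e1 h0.le) (lt_of_le_of_lt g1 g4)
    rw [← mul_div_assoc, lt_div_iff₀ (by positivity)]
    have e3 : (2 : ℝ) ^ (i + 2) = 2 ^ i * 4 := by rw [pow_add]; norm_num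
    have e4 : (2 : ℝ) ^ (L + 1) = 2 ^ L * 2 := by rw [pow_succ]
    rw [e3]
    rw [e4] at e2
    nlinarith

/-! ### Summation -/

open Classical in
lemma start_main {L n₁ N Δ ℓ A n E : ℕ} (hL : 10000 ≤ L) (hn₁ : n₁ = L / 8) (hN : N = L / 16)
    (hΔ : Δ ≤ L / 1000) (hℓ : ℓ = L / 32) (hA : A = L - sh (n₁ + N) - Δ - 3)
    (hn : n ∈ Ioc n₁ (n₁ + N)) {c₁ : ℝ} {n₀ : ℕ} {a : ℤ → ℝ} (ha : AdmC c₁ n₀ a) :
    (∑ v ∈ bx (L + 1 + n), ∑ W ∈ typR E n Δ L, if vd W v ∧ ch W v ∈ win L (L + 1) then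
        wt E W * F E 0 (ch W v) * a v / |(v : ℝ)| else 0) ≤
      ∑ i ∈ Ico A (A + ℓ), ∑ v ∈ win i (i + 1),
        a v * MM E (hw E n (2 ^ L / 2 ^ (i + 2))) (fun _ => 1) v / |(v : ℝ)| := by
  set G : ℤ → ℝ := fun v => ∑ W ∈ typR E n Δ L, if vd W v ∧ ch W v ∈ win L (L + 1) then
        wt E W * F E 0 (ch W v) * a v / |(v : ℝ)| else 0 with hG
  have hterm : ∀ (W : List ℕ) (v : ℤ), 0 ≤ wt E W * F E 0 (ch W v) * a v / |(v : ℝ)| := fun W v =>
    div_nonneg (mul_nonneg (mul_nonneg (wt_nonneg _ _) (F_nonneg _ _ _)) (ha.nonneg v)) (abs_nonneg _)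
  have hG0 : ∀ v, 0 ≤ G v := by
    intro v
    refine sum_nonneg fun W _ => ?_
    split_ifs
    · exact hterm W v
    · exact le_rfl
  have h1 : ∀ v ∈ bx (L + 1 + n), v ∉ win A (A + ℓ) → G v = 0 := by
    intro v hv hvA
    refine sum_eq_zero fun W hW => ?_
    rw [if_neg]
    rintro ⟨h2, h3⟩
    exact hvA (start_geom hL hn₁ hN hΔ hℓ hA hn (typR_sub _ _ _ _ hW) (mem_bx.1 hv).2 h2 h3).1
  have h2 : ∑ v ∈ bx (L + 1 + n), G v ≤ ∑ v ∈ win A (A + ℓ), G v := by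
    rw [← sum_filter_add_sum_filter_not (bx (L + 1 + n)) (fun v => v ∈ win A (A + ℓ)) G]
    rw [sum_eq_zero (s := (bx (L + 1 + n)).filter (fun v => ¬ v ∈ win A (A + ℓ)))
      (fun v hv => h1 v (mem_filter.1 hv).1 (mem_filter.1 hv).2), add_zero]
    refine sum_le_sum_of_subset_of_nonneg ?_ fun v _ _ => hG0 v
    intro v hv
    exact (mem_filter.1 hv).2
  refine h2.trans ?_
  rw [← sum_win_dyadic]
  refine sum_le_sum fun i _ => sum_le_sum fun v hv => ?_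
  have hvO : OO v := (mem_win.1 hv).2.2
  have h3 : a v * MM E (hw E n (2 ^ L / 2 ^ (i + 2))) (fun _ => 1) v / |(v : ℝ)| =
      ∑ W ∈ hw E n (2 ^ L / 2 ^ (i + 2)), if vd W v then wt E W * 1 * a v / |(v : ℝ)| else 0 := by
    unfold MM
    rw [mul_sum, sum_div]
    refine sum_congr rfl fun W _ => ?_
    split_ifs
    · ring
    · simp
  rw [h3, hG]
  have h4 : ∀ W ∈ typR E n Δ L, W ∉ hw E n (2 ^ L / 2 ^ (i + 2)) →
      (if vd W v ∧ ch W v ∈ win L (L + 1) then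
        wt E W * F E 0 (ch W v) * a v / |(v : ℝ)| else 0) = 0 := by
    intro W hW hWn
    rw [if_neg]
    rintro ⟨h5, h6⟩
    exact hWn ((start_geom hL hn₁ hN hΔ hℓ hA hn (typR_sub _ _ _ _ hW) hvO h5 h6).2 i hv)
  simp only []
  rw [← sum_filter_add_sum_filter_not (typR E n Δ L) (fun W => W ∈ hw E n (2 ^ L / 2 ^ (i + 2)))]
  rw [sum_eq_zero (s := (typR E n Δ L).filter (fun W => ¬ W ∈ hw E n (2 ^ L / 2 ^ (i + 2))))
      (fun W hW => h4 W (mem_filter.1 hW).1 (mem_filter.1 hW).2), add_zero]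
  refine le_trans (sum_le_sum (g := fun W => if vd W v then wt E W * 1 * a v / |(v : ℝ)| else 0)
    fun W _ => ?_) (sum_le_sum_of_subset_of_nonneg (fun W hW => (mem_filter.1 hW).2) fun W _ _ => ?_)
  · have h5 := hterm W v
    rw [F_zero] at h5 ⊢
    split_ifs with h6 h7 h7
    · exact le_rfl
    · exact absurd h6.1 h7
    · exact h5
    · exact le_rfl
  · have h5 := hterm W v
    rw [F_zero] at h5
    split_ifs
    · exact h5
    · exact le_rfl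

/-- The dyadic masses. -/
lemma start_window {i m : ℕ} (hi : 72 * 3 ^ m ≤ 2 ^ i) {c₁ : ℝ} {n₀ : ℕ} {a V V' V'' : ℤ → ℝ} (ha : AdmC c₁ n₀ a)
    (hp' : Per (3 ^ m) V') (hp'' : Per (3 ^ m) V'') (h' : ∀ v, 0 ≤ V' v) (h'' : ∀ v, 0 ≤ V'' v)
    (hV : ∀ v, V v = V' v + V'' v) {K δ : ℝ} (hK : mean (3 ^ m) (fun v => V' v ^ 2) ≤ K)
    (hδ : mean (3 ^ m) V'' ≤ δ) :
    LS i (i + 1) (fun v => a v * V v) ≤ √(2 * K) * √(LS i (i + 1) a) + 2 * δ := by
  have hlog : Real.log 2 ≤ 1 := by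
    have := Real.log_two_lt_d9
    linarith
  have hlog0 : 0 ≤ Real.log 2 := Real.log_nonneg (by norm_num)
  have h1 : 36 * 3 ^ m / 2 ^ i ≤ (1 / 2 : ℝ) := by
    rw [div_le_iff₀ (by positivity)]
    have : (72 * 3 ^ m : ℝ) ≤ 2 ^ i := by exact_mod_cast hi
    linarith
  have h4 : 4 * 3 ^ m ≤ 2 ^ i := le_trans (Nat.mul_le_mul_right _ (by norm_num)) hi
  have key : ∀ f : ℤ → ℝ, Per (3 ^ m) f → (∀ v, 0 ≤ f v) → LS i (i + 1) f ≤ 2 * mean (3 ^ m) f := by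
    intro f hf hf0
    have e1 := (abs_le.1 (LS_per (show i ≤ i + 1 by omega) h4 hf hf0)).2
    have e2 : 0 ≤ mean (3 ^ m) f := mean_nonneg hf0
    have e3 : 36 * 3 ^ m / 2 ^ i * mean (3 ^ m) f ≤ 1 / 2 * mean (3 ^ m) f :=
      mul_le_mul_of_nonneg_right h1 e2
    have e4 : Real.log 2 * mean (3 ^ m) f ≤ 1 * mean (3 ^ m) f := mul_le_mul_of_nonneg_right hlog e2
    push_cast at e1
    nlinarith
  have e1 : LS i (i + 1) (fun v => a v * V v) =
      LS i (i + 1) (fun v => a v * V' v) + LS i (i + 1) (fun v => a v * V'' v) := by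
    rw [← LS_add]
    refine LS_congr fun v _ => ?_
    rw [hV]; ring
  have e2 : LS i (i + 1) (fun v => a v * V'' v) ≤ 2 * δ := by
    calc LS i (i + 1) (fun v => a v * V'' v) ≤ LS i (i + 1) V'' := by
          refine LS_mono fun v _ => ?_
          have := mul_le_mul_of_nonneg_right (ha.le_one v) (h'' v)
          linarith
      _ ≤ 2 * mean (3 ^ m) V'' := key V'' hp'' h''
      _ ≤ 2 * δ := by linarith
  have e3 : LS i (i + 1) (fun v => a v * V' v) ≤ √(2 * K) * √(LS i (i + 1) a) := by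
    refine (LS_cs ha.nonneg h').trans ?_
    rw [mul_comm]
    refine mul_le_mul (Real.sqrt_le_sqrt ?_) (Real.sqrt_le_sqrt ?_) (Real.sqrt_nonneg _) (Real.sqrt_nonneg _)
    · have hp2 : Per (3 ^ m) (fun v => V' v ^ 2) := fun x => by
        simp only []
        rw [hp' x]
      have := key (fun v => V' v ^ 2) hp2 (fun v => sq_nonneg _)
      linarith
    · refine LS_mono fun v _ => ?_
      have h5 := ha.nonneg v
      have h6 := ha.le_one v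
      nlinarith
  linarith

lemma start_err (C : ℝ) (hC : 0 < C) {q : ℕ} (hq : 1 ≤ q) {δ : ℝ} (hδ : 0 < δ) : ∃ L₁ : ℕ, ∀ L : ℕ, L₁ ≤ L →
    ∀ n : ℕ, 1 ≤ n → n ≤ L →
    C * ((n + 1) * Real.exp (-(((L / q : ℕ) : ℝ) ^ 2 / (8 * n))) + (1 / 2) ^ (L / 16)) ≤ δ := by
  have hq0 : (0 : ℝ) < q := by exact_mod_cast hq
  -- `(L + 1) exp (- L / (32 q ^ 2))`
  have h1 : Tendsto (fun L : ℕ => C * (((L : ℝ) + 1) * Real.exp (-((L : ℝ) * (1 / (32 * (q : ℝ) ^ 2)))) +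
      (1 / 2 : ℝ) ^ (L / 16))) atTop (𝓝 (C * (0 + 0))) := by
    refine Tendsto.const_mul _ (Tendsto.add ?_ ?_)
    · set β : ℝ := 1 / (32 * (q : ℝ) ^ 2) with hβ
      have hβ0 : 0 < β := by positivity
      have e1 : Tendsto (fun x : ℝ => x * Real.exp (-(β * x))) atTop (𝓝 0) := by
        have := (Real.tendsto_pow_mul_exp_neg_atTop_nhds_zero 1).comp (tendsto_id.const_mul_atTop hβ0)
        have h2 := this.const_mul (1 / β)
        rw [mul_zero] at h2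
        refine h2.congr fun x => ?_
        simp only [Function.comp, id, pow_one]
        field_simp
      have e2 : Tendsto (fun x : ℝ => Real.exp (-(β * x))) atTop (𝓝 0) :=
        Real.tendsto_exp_neg_atTop_nhds_zero.comp (tendsto_id.const_mul_atTop hβ0)
      have e3 := (e1.add e2).comp (tendsto_natCast_atTop_atTop (R := ℝ))
      rw [add_zero] at e3
      refine e3.congr fun L => ?_
      simp only [Function.comp]
      rw [mul_comm β]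
      ring
    · have e1 : Tendsto (fun L : ℕ => L / 16) atTop atTop :=
        Nat.tendsto_div_const_atTop (by norm_num)
      exact (tendsto_pow_atTop_nhds_zero_of_lt_one (by norm_num) (by norm_num)).comp e1
  rw [add_zero, mul_zero] at h1
  have h2 := h1.eventually (gt_mem_nhds hδ)
  obtain ⟨L₀, hL₀⟩ := eventually_atTop.1 h2
  refine ⟨max L₀ q, fun L hL n hn1 hnL => ?_⟩
  have hL1 : L₀ ≤ L := le_trans (le_max_left _ _) hL
  have hL2 : q ≤ L := le_trans (le_max_right _ _) hL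
  refine le_trans (mul_le_mul_of_nonneg_left (add_le_add_left ?_ _) hC.le) (hL₀ L hL1).le
  have hn0 : (0 : ℝ) < n := by exact_mod_cast hn1
  have hnL' : (n : ℝ) ≤ L := by exact_mod_cast hnL
  refine mul_le_mul (by linarith) (Real.exp_le_exp.2 (neg_le_neg ?_)) (Real.exp_pos _).le (by positivity)
  have h3 : (L : ℝ) ≤ 2 * q * ((L / q : ℕ) : ℝ) := by
    have h4 : L < q * (L / q + 1) := by
      have e1 := Nat.div_add_mod L q
      have e2 := Nat.mod_lt L (show 0 < q by omega)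
      rw [mul_add]
      omega
    have h5 : 1 ≤ L / q := (Nat.one_le_div_iff hq).2 hL2
    have h6 : L ≤ 2 * q * (L / q) := by nlinarith
    exact_mod_cast h6
  rw [le_div_iff₀ (by positivity)]
  have h7 : (L : ℝ) ^ 2 ≤ (2 * q * ((L / q : ℕ) : ℝ)) ^ 2 := pow_le_pow_left₀ (by positivity) h3 2
  calc (L : ℝ) * (1 / (32 * (q : ℝ) ^ 2)) * (8 * n) ≤ (L : ℝ) * (1 / (32 * (q : ℝ) ^ 2)) * (8 * L) :=
        mul_le_mul_of_nonneg_left (by linarith) (by positivity)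
    _ = (L : ℝ) ^ 2 / (4 * (q : ℝ) ^ 2) := by field_simp; ring
    _ ≤ (2 * q * ((L / q : ℕ) : ℝ)) ^ 2 / (4 * (q : ℝ) ^ 2) :=
        div_le_div_of_nonneg_right h7 (by positivity)
    _ = ((L / q : ℕ) : ℝ) ^ 2 := by field_simp; ring

/-- The mass of a dyadic window of `a` is small if the masses of the lower windows are small. -/
theorem start {c₁ : ℝ} (hc₁ : 0 < c₁) (n₀ : ℕ) {δ : ℝ} (hδ : 0 < δ) : ∃ (η : ℝ) (L₀ : ℕ), 0 < η ∧ ∀ L : ℕ, L₀ ≤ L →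
    ∀ a : ℤ → ℝ, AdmC c₁ n₀ a →
    (∀ A ℓ : ℕ, L ≤ 2 * A → A ≤ 64 * ℓ → 16 * ℓ ≤ A → LS A (A + ℓ) a ≤ η * ℓ) →
    LS L (L + 1) a ≤ δ := by
  obtain ⟨K, E₁, hK, hvis⟩ := visits (δ := δ / 64) (by positivity)
  obtain ⟨C, L₀, E₀, hC, hsplit⟩ := split c₁ n₀
  obtain ⟨q₀, hq₀⟩ := exists_nat_ge (24 / c₁)
  obtain ⟨q, hqdef⟩ : ∃ q, q = max q₀ 1000 := ⟨_, rfl⟩
  have hq1 : 1000 ≤ q := hqdef ▸ le_max_right _ _
  have hq2 : 24 / c₁ ≤ q := hq₀.trans (by exact_mod_cast hqdef ▸ le_max_left _ _)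
  obtain ⟨L₁, herr⟩ := start_err C hC (q := q) (by omega) (δ := δ / 4) (by positivity)
  refine ⟨δ ^ 2 / (32 * K), max (max L₀ L₁) (10000 + 8 * n₀), by positivity, fun L hL a ha hsmall => ?_⟩
  have hL0 : L₀ ≤ L := le_trans (le_trans (le_max_left _ _) (le_max_left _ _)) hL
  have hL1 : L₁ ≤ L := le_trans (le_trans (le_max_right _ _) (le_max_left _ _)) hL
  have hL2' : 10000 + 8 * n₀ ≤ L := le_trans (le_max_right _ _) hL
  have hL2 : 10000 ≤ L := by omega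
  clear hL
  obtain ⟨n₁, hn₁⟩ : ∃ n₁, n₁ = L / 8 := ⟨_, rfl⟩
  obtain ⟨N, hN⟩ : ∃ N, N = L / 16 := ⟨_, rfl⟩
  obtain ⟨Δ, hΔq⟩ : ∃ Δ, Δ = L / q := ⟨_, rfl⟩
  have hΔ : Δ ≤ L / 1000 := hΔq ▸ Nat.div_le_div_left hq1 (by norm_num)
  have hΔc : ∀ n : ℕ, n₁ < n → 3 * (Δ : ℝ) ≤ c₁ * n := by
    intro n hn
    have hq0 : (0 : ℝ) < q := by exact_mod_cast (by omega : 0 < q)
    have e1 : (Δ : ℝ) * q ≤ L := by
      have : Δ * q ≤ L := hΔq ▸ Nat.div_mul_le_self L q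
      exact_mod_cast this
    have e2 : (L : ℝ) ≤ 8 * n := by
      have : L ≤ 8 * n := by omega
      exact_mod_cast this
    rw [div_le_iff₀ hc₁] at hq2
    have e3 : (0 : ℝ) ≤ n := Nat.cast_nonneg _
    have e4 : 3 * (Δ : ℝ) * q ≤ c₁ * n * q := by nlinarith
    exact le_of_mul_le_mul_right e4 hq0
  obtain ⟨ℓ, hℓ⟩ : ∃ ℓ, ℓ = L / 32 := ⟨_, rfl⟩
  obtain ⟨A, hA⟩ : ∃ A, A = L - sh (n₁ + N) - Δ - 3 := ⟨_, rfl⟩
  obtain ⟨E, hE⟩ : ∃ E, E = max (max E₀ E₁) (4 * L + 100) := ⟨_, rfl⟩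
  have hE0 : E₀ ≤ E := hE ▸ le_trans (le_max_left _ _) (le_max_left _ _)
  have hE1 : E₁ ≤ E := hE ▸ le_trans (le_max_right _ _) (le_max_left _ _)
  have hE2 : 4 * L + 100 ≤ E := hE ▸ le_max_right _ _
  have hsh := twelve_sh (n₁ + N)
  -- the window of the ancestors
  have hwin : LS A (A + ℓ) a ≤ δ ^ 2 / (32 * K) * ℓ := hsmall A ℓ (by omega) (by omega) (by omega)
  -- one depth
  have hone : ∀ n ∈ Ioc n₁ (n₁ + N), LS L (L + 1) a ≤
      (∑ i ∈ Ico A (A + ℓ), ∑ v ∈ win i (i + 1),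
        a v * MM E (hw E n (2 ^ L / 2 ^ (i + 2))) (fun _ => 1) v / |(v : ℝ)|) + δ / 4 := by
    intro n hn
    have hn' := mem_Ioc.1 hn
    have h1 := hsplit L 1 n 0 Δ E hL0 le_rfl (by omega) (by omega) (by omega) (by omega) (by omega) (hΔc n (by omega)) hE0
      (by omega) a ha
    have h2 := start_main (E := E) hL2 hn₁ hN hΔ hℓ hA hn ha
    have h3 := herr L hL1 n (by omega) (by omega)
    have h4 : LS L (L + 1) (fun v => F E 0 v * a v) = LS L (L + 1) a :=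
      LS_congr fun v _ => by rw [F_zero, one_mul]
    rw [h4, Nat.cast_one, mul_one] at h1
    rw [← hΔq] at h3
    linarith
  -- sum over the depths
  have hsum : (N : ℝ) * LS L (L + 1) a ≤
      (∑ i ∈ Ico A (A + ℓ), LS i (i + 1) (fun v => a v * Vis E n₁ N (2 ^ L / 2 ^ (i + 2)) v)) + N * (δ / 4) := by
    have h1 := sum_le_sum hone
    rw [sum_const, Nat.card_Ioc, add_tsub_cancel_left, nsmul_eq_mul, sum_add_distrib, sum_const,
      Nat.card_Ioc, add_tsub_cancel_left, nsmul_eq_mul] at h1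
    refine h1.trans (le_of_eq ?_)
    congr 1
    rw [sum_comm]
    refine sum_congr rfl fun i _ => ?_
    rw [sum_comm]
    unfold LS
    refine sum_congr rfl fun v _ => ?_
    unfold Vis
    simp only []
    rw [mul_sum, sum_div]
  -- one dyadic window
  have hdy : ∀ i ∈ Ico A (A + ℓ), LS i (i + 1) (fun v => a v * Vis E n₁ N (2 ^ L / 2 ^ (i + 2)) v) ≤
      √(2 * K) * √(LS i (i + 1) a) + 2 * (δ / 64) := by
    intro i hi
    have hi' := mem_Ico.1 hi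
    obtain ⟨V', V'', p1, p2, p3, p4, p5, p6, p7⟩ := hvis E n₁ N (2 ^ L / 2 ^ (i + 2)) hE1 (by omega) (by positivity)
    refine start_window (m := n₁ + N) ?_ ha p1 p2 p3 p4 p5 p6 p7
    have h1 : 3 ^ (n₁ + N) ≤ 2 ^ (i - 7) := three_pow_le (by omega)
    calc 72 * 3 ^ (n₁ + N) ≤ 2 ^ 7 * 2 ^ (i - 7) := Nat.mul_le_mul (by norm_num) h1
      _ = 2 ^ i := by rw [← pow_add]; congr 1; omega
  have hdys := sum_le_sum hdy
  rw [sum_add_distrib, ← mul_sum, sum_const, Nat.card_Ico, add_tsub_cancel_left, nsmul_eq_mul] at hdys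
  have hcs := start_cs A ℓ (f := fun i => LS i (i + 1) a) (fun i => LS_nonneg fun v _ => ha.nonneg v)
  rw [LS_sum_dyadic] at hcs
  have hℓ0 : (0 : ℝ) ≤ ℓ := Nat.cast_nonneg _
  have hroot : √(2 * K) * √(ℓ * LS A (A + ℓ) a) ≤ ℓ * (δ / 4) := by
    rw [← Real.sqrt_mul (by positivity)]
    refine (Real.sqrt_le_sqrt (show 2 * K * (ℓ * LS A (A + ℓ) a) ≤ (ℓ * (δ / 4)) ^ 2 from ?_)).trans
      (le_of_eq (Real.sqrt_sq (by positivity)))
    calc 2 * K * (ℓ * LS A (A + ℓ) a) ≤ 2 * K * (ℓ * (δ ^ 2 / (32 * K) * ℓ)) := by gcongr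
      _ = (ℓ * (δ / 4)) ^ 2 := by field_simp; ring
  have hfin : (N : ℝ) * LS L (L + 1) a ≤ ℓ * (δ / 4) + ℓ * (2 * (δ / 64)) + N * (δ / 4) := by
    have h1 : √(2 * K) * ∑ i ∈ Ico A (A + ℓ), √(LS i (i + 1) a) ≤ √(2 * K) * √(ℓ * LS A (A + ℓ) a) :=
      mul_le_mul_of_nonneg_left hcs (Real.sqrt_nonneg _)
    linarith
  have hNℓ : (ℓ : ℝ) ≤ N := by
    have : ℓ ≤ N := by omega
    exact_mod_cast this
  have hN0 : (0 : ℝ) < N := by
    have : 0 < N := by omega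
    exact_mod_cast this
  have hfin2 : (N : ℝ) * LS L (L + 1) a ≤ N * δ := by nlinarith
  exact le_of_mul_le_mul_left hfin2 hN0

end CollatzTime
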