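import Pool.Agent.CollatzLin.TaoFinal

set_option autoImplicit false

/-!
# Almost all Collatz trajectories follow a straight line: definitions and interface statements

`kap = 3 / log (4/3)`.  Goal (`Stmt_final`): for almost all integers `n` (natural density) the
trajectory of `n` attains its minimal absolute value for the first time at a step
`T = (kap + o(1)) log |n|`, and `log |C^k n| = log |n| - k / kap + o(log |n|)` uniformly for `k ≤ T`.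
-/

namespace CollatzTime

open CollatzLin CollatzOne Finset Filter Topology

/-- All prefixes of the word `W` have total exponent close to twice their length. -/
def Reg (Δ : ℕ) (W : List ℕ) : Prop :=
  ∀ j ≤ W.length, js (W.take j) ≤ 2 * j + Δ ∧ 2 * j ≤ js (W.take j) + Δ

/-- Functions with values in `[0, 1]` that do not increase along regular words. -/
structure AdmC (c : ℝ) (n₀ : ℕ) (a : ℤ → ℝ) : Prop where
  nonneg : ∀ v, 0 ≤ a v
  le_one : ∀ v, a v ≤ 1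
  mono : ∀ (n Δ L : ℕ) (W : List ℕ) (v : ℤ), n₀ ≤ n → (Δ : ℝ) ≤ c * n → Δ ≤ n → 4 * n ≤ L →
    (∀ e ∈ W, 1 ≤ e) → W.length = n → Reg Δ W → dst W ≤ 2 ^ (L / 8) → OO v → vd W v →
    (2 : ℤ) ^ L ≤ |ch W v| → a (ch W v) ≤ a v

/-- the typical number of Collatz steps per unit of `log |n|` -/
noncomputable def kap : ℝ := 3 / Real.log (4 / 3)

/-- The deviation of `log |C^k n|` from the straight line `log |n| - k / kap`. -/
noncomputable def Dev (k : ℕ) (n : ℤ) : ℝ :=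
  k / kap + Real.log (|((CollatzExp.C^[k] n : ℤ) : ℝ)|) - Real.log (|(n : ℝ)|)

/-- The trajectory of `n` leaves the neighbourhood of the straight line before it enters `[-M, M]`. -/
def Bad (ε : ℝ) (M : ℕ) (n : ℤ) : Prop :=
  ∃ k : ℕ, (∀ j ≤ k, (M : ℤ) < |CollatzExp.C^[j] n|) ∧ ε * Real.log (|(n : ℝ)|) < |Dev k n|

open Classical in
/-- indicator function of the `v` such that `3 v - 1` is bad -/
noncomputable def bf (ε : ℝ) (M : ℕ) (v : ℤ) : ℝ := if Bad ε M (3 * v - 1) then 1 else 0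

/-- Small: `log_small` + `start` for `AdmC` functions -/
def Stmt_small : Prop := ∀ (c : ℝ) (n₀ : ℕ) (δ : ℝ), 0 < c → 0 < δ → ∃ L₁ : ℕ, ∀ a : ℤ → ℝ,
  AdmC c n₀ a → (∀ v : ℤ, |v| < 2 ^ (2 * L₁) → a v = 0) → ∀ L : ℕ, 2 * L₁ ≤ L → LS L (L + 1) a ≤ δ

/-- Adm: `bf` does not increase along regular words -/
def Stmt_adm : Prop := ∀ ε : ℝ, 0 < ε → ∃ (c : ℝ) (n₀ : ℕ), 0 < c ∧ ∀ M : ℕ, AdmC c n₀ (bf ε M)

/-- OOcount: the bad integers of the form `3 v - 1`, `OO v` (from Small and Adm) -/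
def Stmt_oo : Prop := ∀ ε δ : ℝ, 0 < ε → 0 < δ → ∃ (M : ℕ) (B : ℝ), ∀ X : ℕ,
  cnt (fun v => OO v ∧ Bad ε M (3 * v - 1)) X ≤ δ * X + B

/-- Transfer: from the integers of the form `3 v - 1`, `OO v`, to all integers -/
def Stmt_transfer : Prop := ∀ (ε δ : ℝ) (M : ℕ) (B : ℝ), 0 < ε → 0 < δ →
  (∀ X : ℕ, cnt (fun v => OO v ∧ Bad (ε / 4) M (3 * v - 1)) X ≤ δ * X + B) →
  ∃ B' : ℝ, ∀ X : ℕ, cnt (Bad ε M) X ≤ 1000 * δ * X + B'

/-- Final -/
def Stmt_final : Prop := ∀ (f : ℕ → ℝ), Tendsto f atTop atTop → ∀ ε : ℝ, 0 < ε → Tendsto (fun N : ℕ =>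
  ({n : ℤ | |n| ≤ N ∧ ∃ T : ℕ, (∀ j, |CollatzExp.C^[T] n| ≤ |CollatzExp.C^[j] n|) ∧
    (∀ j < T, |CollatzExp.C^[T] n| < |CollatzExp.C^[j] n|) ∧
    ((|CollatzExp.C^[T] n| : ℤ) : ℝ) ≤ f n.natAbs ∧
    |(T : ℝ) - kap * Real.log (|(n : ℝ)|)| ≤ ε * Real.log (|(n : ℝ)|) ∧
    ∀ k ≤ T, |Real.log (|((CollatzExp.C^[k] n : ℤ) : ℝ)|) - (Real.log (|(n : ℝ)|) - k / kap)| ≤
      ε * Real.log (|(n : ℝ)|)}.ncard : ℝ) / (2 * N + 1)) atTop (𝓝 1)

end CollatzTime
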