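import Pool.Agent.CollatzTime.StartC
import Pool.Agent.CollatzTime.LogSmallC
import Pool.Agent.CollatzLin.Mix

set_option autoImplicit false

/-!
# Functions that do not increase along regular words and vanish near the origin are rare
-/

namespace CollatzTime

open CollatzLin CollatzOne Finset Filter Topology

theorem small_proof : Stmt_small := by
  intro c n₀ δ hc hδ
  obtain ⟨η, L₀, hη, hs⟩ := start hc n₀ hδ
  obtain ⟨C, L₂, hC, hl⟩ := log_small_of mix hc n₀
  have ht : Tendsto (fun x : ℕ => C * (x : ℝ) ^ (-(1 / 4) : ℝ)) atTop (𝓝 0) := by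
    have h1 := (tendsto_rpow_neg_atTop (y := 1 / 4) (by norm_num)).comp
      (tendsto_natCast_atTop_atTop (R := ℝ))
    simpa using h1.const_mul C
  obtain ⟨L₁, hL₁, hL₁'⟩ := ((ht.eventually (Iio_mem_nhds hη)).and
    (eventually_ge_atTop (max L₂ L₀))).exists
  refine ⟨L₁, fun a ha hz L hL => ?_⟩
  have h0 : L₀ ≤ L₁ := le_trans (le_max_right _ _) hL₁'
  refine hs L (by omega) a ha ?_
  intro A ℓ h1 h2 h3
  refine (hl L₁ (le_trans (le_max_left _ _) hL₁') a ha hz A ℓ (by omega) h2 h3).trans ?_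
  have h5 : (0 : ℝ) ≤ ℓ := Nat.cast_nonneg _
  have h6 : C * (L₁ : ℝ) ^ (-(1 / 4) : ℝ) ≤ η := le_of_lt hL₁
  nlinarith

end CollatzTime
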