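import Pool.Agent.CollatzTime.Defs
import Pool.Agent.CollatzLin.Split

set_option autoImplicit false

/-!
# One step of the transport identity, with regular typical words
-/

namespace CollatzTime

open CollatzLin CollatzOne Finset Filter Topology

open Classical in
/-- The typical words all of whose prefixes are typical. -/
noncomputable def typR (E n Δ L : ℕ) : Finset (List ℕ) := (typ E n Δ L).filter (Reg (3 * Δ))

lemma typR_sub (E n Δ L : ℕ) : typR E n Δ L ⊆ typ E n Δ L := by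
  classical
  unfold typR
  exact filter_subset _ _

lemma mem_typR {E n Δ L : ℕ} {W : List ℕ} : W ∈ typR E n Δ L ↔ W ∈ typ E n Δ L ∧ Reg (3 * Δ) W := by
  classical
  unfold typR
  rw [mem_filter]

/-- Marginals. -/
lemma Pr_prefix {E : ℕ} (hE : 1 ≤ E) {j n : ℕ} (hj : j ≤ n) (p : List ℕ → Prop) [DecidablePred p] :
    Pr E ((words E n).filter (fun W => p (W.take j))) = Pr E ((words E j).filter p) := by
  obtain ⟨m, rfl⟩ := Nat.exists_eq_add_of_le hj
  unfold Pr
  rw [sum_filter, sum_filter, sum_words_add]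
  refine sum_congr rfl fun W hW => ?_
  have hlen := length_of_mem hW
  have h1 : ∀ V ∈ words E m, (if p ((W ++ V).take j) then pr E (W ++ V) else 0) =
      (if p W then pr E W else 0) * pr E V := by
    intro V _
    rw [List.take_left' hlen, pr_append]
    split_ifs
    · rfl
    · rw [zero_mul]
  rw [sum_congr rfl h1, ← mul_sum, sum_pr hE, mul_one]

lemma js_take_mono (W : List ℕ) {i j : ℕ} (h : i ≤ j) : js (W.take i) ≤ js (W.take j) := by
  have h1 : W.take i = (W.take j).take i := by rw [List.take_take, min_eq_left h]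
  have h2 := List.take_append_drop i (W.take j)
  have h3 : js (W.take j) = js ((W.take j).take i) + js ((W.take j).drop i) := by
    rw [← js_append, h2]
  rw [h3, h1]
  omega

lemma length_le_js {W : List ℕ} (hW : ∀ e ∈ W, 1 ≤ e) : W.length ≤ js W := by
  induction W with
  | nil => simp
  | cons e W ih =>
    rw [js_cons, List.length_cons]
    have := ih fun x hx => hW x (by simp [hx])
    have := hW e (by simp)
    omega

open Classical in
/-- Probability that the exponent of the prefix of length `j` is not typical. -/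
lemma Pr_bad {E j Δ : ℕ} (hj : 1 ≤ j) (hΔ : Δ ≤ j) (hE : j + 1 ≤ E) :
    Pr E ((words E j).filter (fun W => ¬ (js W ≤ 2 * j + Δ ∧ 2 * j ≤ js W + Δ))) ≤
      4 * Real.exp (-((Δ : ℝ) ^ 2 / (8 * j))) := by
  have hE1 : 1 ≤ E := by omega
  rcases Nat.eq_zero_or_pos Δ with h0 | hΔ0
  · subst h0
    have h1 := Pr_mono (E := E) (filter_subset (fun W => ¬ (js W ≤ 2 * j + 0 ∧ 2 * j ≤ js W + 0)) (words E j))
    rw [Pr_words hE1] at h1
    have h3 : Real.exp (-(((0 : ℕ) : ℝ) ^ 2 / (8 * j))) = 1 := by simp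
    rw [h3]
    linarith
  have hn0 : (0 : ℝ) < j := by exact_mod_cast hj
  have hΔr : (0 : ℝ) < Δ := by exact_mod_cast hΔ0
  set ε : ℝ := Δ / j with hε
  have hε0 : 0 < ε := by positivity
  have hε1 : ε ≤ 1 := by
    rw [hε, div_le_one hn0]
    exact_mod_cast hΔ
  have hεn : ε * j = Δ := by rw [hε]; field_simp
  have hexp : ε ^ 2 * j / 8 = (Δ : ℝ) ^ 2 / (8 * j) := by
    rw [hε]; field_simp
  have hup := Pr_upper hE1 j hε0 hε1
  have hlo := Pr_lower hE1 j hε0 hε1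
  rw [hexp] at hup hlo
  have hZ := half_le_Z_pow hE
  have hexp0 : 0 < Real.exp (-((Δ : ℝ) ^ 2 / (8 * j))) := Real.exp_pos _
  have hdiv : Real.exp (-((Δ : ℝ) ^ 2 / (8 * j))) / Z E ^ j ≤ 2 * Real.exp (-((Δ : ℝ) ^ 2 / (8 * j))) := by
    rw [div_le_iff₀ (by linarith)]
    nlinarith
  have hsub : (words E j).filter (fun W => ¬ (js W ≤ 2 * j + Δ ∧ 2 * j ≤ js W + Δ)) ⊆
      ((words E j).filter (fun W => (2 + ε) * j < js W) ∪
        (words E j).filter (fun W => (js W : ℝ) < (2 - ε) * j)) := by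
    intro W hW
    rw [mem_filter] at hW
    rw [mem_union, mem_filter, mem_filter]
    obtain ⟨hW1, hW2⟩ := hW
    by_cases h1 : js W ≤ 2 * j + Δ
    · right
      refine ⟨hW1, ?_⟩
      have h2 : ¬ 2 * j ≤ js W + Δ := fun h2 => hW2 ⟨h1, h2⟩
      push Not at h2
      have h3 : ((js W : ℕ) : ℝ) + Δ < 2 * j := by exact_mod_cast h2
      nlinarith
    · left
      refine ⟨hW1, ?_⟩
      push Not at h1
      have h3 : 2 * (j : ℝ) + Δ < js W := by exact_mod_cast h1
      nlinarith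
  have h4 := Pr_mono (E := E) hsub
  have h6 := Pr_union_le E ((words E j).filter (fun W => (2 + ε) * j < js W))
        ((words E j).filter (fun W => (js W : ℝ) < (2 - ε) * j))
  linarith

lemma Pr_biUnion_le {ι : Type*} (E : ℕ) (s : Finset ι) (𝒲 : ι → Finset (List ℕ)) :
    Pr E (s.biUnion 𝒲) ≤ ∑ i ∈ s, Pr E (𝒲 i) := by
  classical
  induction s using Finset.induction_on with
  | empty => simp [Pr]
  | insert i s hi ih =>
    rw [biUnion_insert, sum_insert hi]
    have := Pr_union_le E (𝒲 i) (s.biUnion 𝒲)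
    linarith

open Classical in
theorem Pr_not_typR : ∃ E₀ : ℕ, ∀ L n Δ E : ℕ, 1 ≤ n → Δ ≤ n → E₀ ≤ E → n + 1 ≤ E →
    1 - Pr E (typR E n Δ L) ≤ 4 * ((n + 1) * Real.exp (-((Δ : ℝ) ^ 2 / (8 * n)))) + 80 * (1 / 2) ^ (L / 16) := by
  obtain ⟨E₀, h⟩ := Pr_not_typ
  refine ⟨E₀, fun L n Δ E hn hΔ hE hnE => ?_⟩
  have hE1 : 1 ≤ E := by omega
  have h1 := h L n Δ E hn hΔ hE hnE
  have h2 := Pr_filter_add E (typ E n Δ L) (Reg (3 * Δ))
  have h3 : (typ E n Δ L).filter (fun W => ¬ Reg (3 * Δ) W) ⊆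
      (Icc (max 1 Δ) n).biUnion (fun j => (words E n).filter
        (fun W => (fun V => ¬ (js V ≤ 2 * j + Δ ∧ 2 * j ≤ js V + Δ)) (W.take j))) := by
    intro W hW
    rw [mem_filter] at hW
    obtain ⟨hW1, hW2⟩ := hW
    have hWw := typ_sub _ _ _ _ hW1
    have hlen := length_of_mem hWw
    by_contra hcon
    apply hW2
    have hall : ∀ j, max 1 Δ ≤ j → j ≤ n → js (W.take j) ≤ 2 * j + Δ ∧ 2 * j ≤ js (W.take j) + Δ := by
      intro j hj1 hj2
      by_contra hc
      apply hcon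
      rw [mem_biUnion]
      refine ⟨j, mem_Icc.2 ⟨hj1, hj2⟩, ?_⟩
      rw [mem_filter]
      exact ⟨hWw, hc⟩
    intro j hj
    rw [hlen] at hj
    rcases Nat.eq_zero_or_pos j with h0 | h0
    · subst h0
      simp [js_nil]
    · by_cases hjΔ : Δ ≤ j
      · have := hall j (by omega) hj
        omega
      · have h4 := hall Δ (by omega) hΔ
        have h5 := js_take_mono W (show j ≤ Δ by omega)
        have h6 : (W.take j).length ≤ js (W.take j) :=
          length_le_js fun e he => one_le_of_mem hWw e (List.mem_of_mem_take he)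
        rw [List.length_take, hlen, min_eq_left hj] at h6
        omega
  have h4 := Pr_mono (E := E) h3
  have h5 := Pr_biUnion_le E (Icc (max 1 Δ) n) (fun j => (words E n).filter
        (fun W => (fun V => ¬ (js V ≤ 2 * j + Δ ∧ 2 * j ≤ js V + Δ)) (W.take j)))
  have h6 : ∑ j ∈ Icc (max 1 Δ) n, Pr E ((words E n).filter
        (fun W => (fun V => ¬ (js V ≤ 2 * j + Δ ∧ 2 * j ≤ js V + Δ)) (W.take j))) ≤
      ∑ j ∈ Icc (max 1 Δ) n, 4 * Real.exp (-((Δ : ℝ) ^ 2 / (8 * n))) := by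
    refine sum_le_sum fun j hj => ?_
    rw [mem_Icc] at hj
    rw [Pr_prefix hE1 hj.2 (fun V => ¬ (js V ≤ 2 * j + Δ ∧ 2 * j ≤ js V + Δ))]
    refine (Pr_bad (by omega) (by omega) (by omega)).trans ?_
    refine mul_le_mul_of_nonneg_left (Real.exp_le_exp.2 (neg_le_neg ?_)) (by norm_num)
    have hj0 : (0 : ℝ) < j := by exact_mod_cast (by omega : 0 < j)
    have hjn : (j : ℝ) ≤ n := by exact_mod_cast hj.2
    exact div_le_div_of_nonneg_left (sq_nonneg _) (by positivity) (by linarith)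
  rw [sum_const, nsmul_eq_mul] at h6
  have h7 : (((Icc (max 1 Δ) n).card : ℕ) : ℝ) ≤ n := by
    have : (Icc (max 1 Δ) n).card ≤ n := by rw [Nat.card_Icc]; omega
    exact_mod_cast this
  have h8 : 0 < Real.exp (-((Δ : ℝ) ^ 2 / (8 * n))) := Real.exp_pos _
  have h9 : (((Icc (max 1 Δ) n).card : ℕ) : ℝ) * (4 * Real.exp (-((Δ : ℝ) ^ 2 / (8 * n)))) ≤
      n * (4 * Real.exp (-((Δ : ℝ) ^ 2 / (8 * n)))) := mul_le_mul_of_nonneg_right h7 (by positivity)
  have h10 : Pr E (typR E n Δ L) = Pr E ((typ E n Δ L).filter (Reg (3 * Δ))) := rfl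
  rw [h10]
  linarith

lemma card_typR_le {E n Δ L : ℕ} (hE : 1 ≤ E) : ((typR E n Δ L).card : ℝ) ≤ 2 ^ (2 * n + Δ) := by
  refine le_trans ?_ (card_typ_le (E := E) (n := n) (Δ := Δ) (L := L) hE)
  exact_mod_cast card_le_card (typR_sub E n Δ L)

lemma typR_sub' (E n Δ L : ℕ) : typR E n Δ L ⊆ words E n := (typR_sub E n Δ L).trans (typ_sub E n Δ L)

theorem split (c : ℝ) (n₀ : ℕ) : ∃ (C : ℝ) (L₀ E₀ : ℕ), 0 < C ∧ ∀ L ℓ n m Δ E : ℕ, L₀ ≤ L → 1 ≤ ℓ → 1 ≤ n → 4 * n ≤ L →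
    16 * m ≤ L → 3 * Δ ≤ n → n₀ ≤ n → 3 * (Δ : ℝ) ≤ c * n → E₀ ≤ E → 2 * (L + ℓ + n + 4) ≤ E → ∀ a : ℤ → ℝ, AdmC c n₀ a →
    LS L (L + ℓ) (fun v => F E m v * a v) ≤
      (∑ v ∈ bx (L + ℓ + n), ∑ W ∈ typR E n Δ L, if vd W v ∧ ch W v ∈ win L (L + ℓ) then
        wt E W * F E m (ch W v) * a v / |(v : ℝ)| else 0) +
      C * ℓ * ((n + 1) * Real.exp (-((Δ : ℝ) ^ 2 / (8 * n))) + (1 / 2) ^ (L / 16)) := by
  obtain ⟨E₀, hE₀⟩ := Pr_not_typR
  refine ⟨300, 16, max E₀ 1, by norm_num, fun L ℓ n m Δ E hL hℓ hn hnL hmL hΔ3 hn₀ hΔc hE hE2 a ha => ?_⟩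
  have hΔ : Δ ≤ n := by omega
  have hE1 : 1 ≤ E := (le_max_right _ _).trans hE
  have hnt := hE₀ L n Δ E hn hΔ ((le_max_left _ _).trans hE) (by omega)
  set B := L + ℓ with hB
  set δ : ℝ := (1 / 2) ^ (L / 16) with hδ
  set x : ℝ := (n + 1) * Real.exp (-((Δ : ℝ) ^ 2 / (8 * n))) with hx
  have hδ0 : 0 < δ := by positivity
  have hx0 : 0 < x := by positivity
  have hℓr : (1 : ℝ) ≤ ℓ := by exact_mod_cast hℓ
  have hF0 : ∀ v, 0 ≤ F E m v := F_nonneg E m
  have hmean : mean (3 ^ m) (F E m) = 1 := mean_F hE1 m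
  -- the two functions
  set g1 : ℤ → ℝ := fun u => if u ∈ win L B then F E m u * a u / |(u : ℝ)| else 0 with hg1
  set g2 : ℤ → ℝ := fun u => if u ∈ win L B then F E m u / |(u : ℝ)| else 0 with hg2
  have hout : ∀ u : ℤ, 2 ^ B ≤ |u| → u ∉ win L B := by
    intro u hu h
    rw [sp_mem_win] at h
    omega
  have hT1 := transport (B := B) (n := n) (E := E) (by omega) g1 (fun u hu => by
    simp only [hg1]; exact if_neg (hout u hu))
  have hT2 := transport (B := B) (n := n) (E := E) (by omega) g2 (fun u hu => by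
    simp only [hg2]; exact if_neg (hout u hu))
  have hg10 : ∀ u, g1 u ≤ g2 u := by
    intro u
    simp only [hg1, hg2]
    split_ifs
    · refine div_le_div_of_nonneg_right ?_ (abs_nonneg _)
      calc F E m u * a u ≤ F E m u * 1 := mul_le_mul_of_nonneg_left (ha.le_one u) (hF0 u)
        _ = _ := mul_one _
    · exact le_rfl
  have hg20 : ∀ u, 0 ≤ g2 u := by
    intro u
    simp only [hg2]
    split_ifs
    · exact div_nonneg (hF0 u) (abs_nonneg _)
    · exact le_rfl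
  -- sizes
  have h3m : (3 : ℝ) ^ m ≤ 2 ^ (2 * m) := by
    rw [pow_mul]
    exact pow_le_pow_left₀ (by norm_num) (by norm_num) m
  have hδeq : δ * 2 ^ (L / 16) = 1 := by
    rw [hδ, ← mul_pow]; norm_num
  have hsmall : 36 * 3 ^ m / (2 : ℝ) ^ L * (1 + 2 ^ (2 * n + Δ)) ≤ 36 * δ := by
    have h1 : (1 : ℝ) + 2 ^ (2 * n + Δ) ≤ 2 ^ (3 * n + 1) := by
      have h2 : (1 : ℝ) ≤ 2 ^ (3 * n) := one_le_pow₀ (by norm_num)
      have h3 : (2 : ℝ) ^ (2 * n + Δ) ≤ 2 ^ (3 * n) := pow_le_pow_right₀ (by norm_num) (by omega)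
      rw [pow_succ]
      linarith
    have h2 : (3 : ℝ) ^ m * (1 + 2 ^ (2 * n + Δ)) * 2 ^ (L / 16) ≤ 2 ^ L := by
      calc (3 : ℝ) ^ m * (1 + 2 ^ (2 * n + Δ)) * 2 ^ (L / 16) ≤
            2 ^ (2 * m) * 2 ^ (3 * n + 1) * 2 ^ (L / 16) := by gcongr
        _ = 2 ^ (2 * m + (3 * n + 1) + L / 16) := by rw [← pow_add, ← pow_add]
        _ ≤ 2 ^ L := pow_le_pow_right₀ (by norm_num) (by omega)
    have h3 : (3 : ℝ) ^ m * (1 + 2 ^ (2 * n + Δ)) ≤ δ * 2 ^ L := by
      have h4 := mul_le_mul_of_nonneg_left h2 hδ0.le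
      calc (3 : ℝ) ^ m * (1 + 2 ^ (2 * n + Δ)) = δ * 2 ^ (L / 16) * ((3 : ℝ) ^ m * (1 + 2 ^ (2 * n + Δ))) := by
            rw [hδeq, one_mul]
        _ = δ * (3 ^ m * (1 + 2 ^ (2 * n + Δ)) * 2 ^ (L / 16)) := by ring
        _ ≤ _ := h4
    rw [div_mul_eq_mul_div, div_le_iff₀ (by positivity)]
    linarith
  have hsmall1 : 36 * 3 ^ m / (2 : ℝ) ^ L ≤ 36 * δ := by
    refine le_trans ?_ hsmall
    have h1 : (0 : ℝ) ≤ 36 * 3 ^ m / (2 : ℝ) ^ L := by positivity
    have h2 : (1 : ℝ) ≤ 1 + 2 ^ (2 * n + Δ) := by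
      have : (0 : ℝ) ≤ 2 ^ (2 * n + Δ) := by positivity
      linarith
    nlinarith
  have hnat : 4 * 3 ^ m ≤ 2 ^ L := by
    have h1 : 3 ^ m ≤ 2 ^ (2 * m) := by
      rw [pow_mul]
      exact Nat.pow_le_pow_left (by norm_num) m
    calc 4 * 3 ^ m ≤ 2 ^ 2 * 2 ^ (2 * m) := Nat.mul_le_mul (by norm_num) h1
      _ = 2 ^ (2 + 2 * m) := by rw [← pow_add]
      _ ≤ 2 ^ L := Nat.pow_le_pow_right (by norm_num) (by omega)
  have hlog : 3 / 2 * Real.log 2 ≤ 2 := by
    have := Real.log_two_lt_d9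
    linarith
  have hlog0 : 0 ≤ 3 / 2 * Real.log 2 := by
    have := Real.log_nonneg (show (1 : ℝ) ≤ 2 by norm_num)
    linarith
  have hBL : ((B : ℝ) - L) = ℓ := by
    rw [hB]; push_cast; ring
  -- total mass
  have htot : ∑ u ∈ bx B, g2 u = LS L B (F E m) := by rw [LS_eq]
  have hLSper := LS_per (A := L) (B := B) (by omega) hnat (F_per E m) hF0
  rw [hmean, mul_one, mul_one, hBL] at hLSper
  have hLSub : LS L B (F E m) ≤ 3 / 2 * Real.log 2 * ℓ + 36 * 3 ^ m / 2 ^ L := by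
    have := (abs_le.1 hLSper).2
    linarith
  -- the typical part of the transported mass
  set T2 : ℝ := ∑ v ∈ bx (B + n), ∑ W ∈ typR E n Δ L, if vd W v then g2 (ch W v) else 0 with hT2def
  have hT2lb : 3 / 2 * Real.log 2 * ℓ * (Z E ^ n * Pr E (typR E n Δ L)) -
      (typR E n Δ L).card * (36 * 3 ^ m / 2 ^ L) ≤ T2 := by
    rw [hT2def, sum_comm]
    have h1 : ∀ W ∈ typR E n Δ L, 3 / 2 * Real.log 2 * ℓ * (1 / 2 ^ js W) - 36 * 3 ^ m / 2 ^ L ≤
        ∑ v ∈ bx (B + n), if vd W v then g2 (ch W v) else 0 := by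
      intro W hW
      have hW' := sp_mem_typ.1 (typR_sub _ _ _ _ hW)
      have hjs : 4 * 3 ^ m * 2 ^ js W ≤ 2 ^ L := by
        have h1 : 3 ^ m ≤ 2 ^ (2 * m) := by
          rw [pow_mul]
          exact Nat.pow_le_pow_left (by norm_num) m
        calc 4 * 3 ^ m * 2 ^ js W ≤ 2 ^ 2 * 2 ^ (2 * m) * 2 ^ (3 * n) :=
              Nat.mul_le_mul (Nat.mul_le_mul (by norm_num) h1) (Nat.pow_le_pow_right (by norm_num) (by omega))
          _ = 2 ^ (2 + 2 * m + 3 * n) := by rw [← pow_add, ← pow_add]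
          _ ≤ 2 ^ L := Nat.pow_le_pow_right (by norm_num) (by omega)
      have h2 := LS_class (n := n) (A := L) (B := B) (one_le_of_mem hW'.1) (length_of_mem hW'.1) (by omega) hjs
        (F_per E m) hF0
      rw [hmean, mul_one, mul_one, hBL] at h2
      refine le_trans (le_of_eq ?_) (h2.trans (le_of_eq ?_))
      · rw [mul_one_div]
      · refine sum_congr rfl fun v _ => ?_
        simp only [hg2]
        by_cases hvd : vd W v
        · by_cases hw : ch W v ∈ win L B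
          · rw [if_pos ⟨hvd, hw⟩, if_pos hvd, if_pos hw]
          · rw [if_neg (fun h => hw h.2), if_pos hvd, if_neg hw]
        · rw [if_neg (fun h => hvd h.1), if_neg hvd]
    refine le_trans (le_of_eq ?_) (sum_le_sum h1)
    rw [sum_sub_distrib, ← mul_sum, sum_inv_eq hE1 (fun W hW => length_of_mem (typR_sub' _ _ _ _ hW)),
      sum_const, nsmul_eq_mul]
  -- the non typical part
  have hNT : ∑ v ∈ bx (B + n), ∑ W ∈ words E n \ typR E n Δ L, (if vd W v then g1 (ch W v) else 0) ≤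
      LS L B (F E m) - T2 := by
    have h1 : ∑ v ∈ bx (B + n), ∑ W ∈ words E n \ typR E n Δ L, (if vd W v then g1 (ch W v) else 0) ≤
        ∑ v ∈ bx (B + n), ∑ W ∈ words E n \ typR E n Δ L, (if vd W v then g2 (ch W v) else 0) := by
      refine sum_le_sum fun v _ => sum_le_sum fun W _ => ?_
      split_ifs
      · exact hg10 _
      · exact le_rfl
    refine h1.trans (le_of_eq ?_)
    rw [← htot, hT2, hT2def, ← sum_sub_distrib]
    refine sum_congr rfl fun v _ => ?_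
    rw [← sum_sdiff (typR_sub' E n Δ L)]
    ring
  have hPr1 : Pr E (typR E n Δ L) ≤ 1 := by
    have := Pr_mono (E := E) (typR_sub' E n Δ L)
    rwa [Pr_words hE1] at this
  have hPr0 := Pr_nonneg E (typR E n Δ L)
  have hZn := Z_pow_ge E n
  have hZn1 : Z E ^ n ≤ 1 := pow_le_one₀ (Z_nonneg E) (Z_le_one E)
  have hnE : (n : ℝ) / 2 ^ E ≤ δ := by
    have h1 : n < 2 ^ n := Nat.lt_two_pow_self
    have h2 : (n : ℝ) ≤ 2 ^ n := by exact_mod_cast h1.le
    rw [div_le_iff₀ (by positivity)]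
    calc (n : ℝ) ≤ 2 ^ n := h2
      _ = δ * 2 ^ (L / 16) * 2 ^ n := by rw [hδeq, one_mul]
      _ = δ * 2 ^ (L / 16 + n) := by rw [mul_assoc, ← pow_add]
      _ ≤ δ * 2 ^ E := mul_le_mul_of_nonneg_left (pow_le_pow_right₀ (by norm_num) (by omega)) hδ0.le
  have hbrace : LS L B (F E m) - T2 ≤ ℓ * (8 * x + 198 * δ) := by
    have h1 : 1 - Z E ^ n * Pr E (typR E n Δ L) ≤ δ + (4 * x + 80 * δ) := by
      have h2 : (1 - Z E ^ n) * Pr E (typR E n Δ L) ≤ (1 - Z E ^ n) * 1 :=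
        mul_le_mul_of_nonneg_left hPr1 (by linarith)
      nlinarith
    have h2 : 3 / 2 * Real.log 2 * ℓ * (1 - Z E ^ n * Pr E (typR E n Δ L)) ≤ 2 * ℓ * (δ + (4 * x + 80 * δ)) := by
      have h3 : 0 ≤ 1 - Z E ^ n * Pr E (typR E n Δ L) := by
        have : Z E ^ n * Pr E (typR E n Δ L) ≤ 1 * 1 :=
          mul_le_mul hZn1 hPr1 hPr0 (by norm_num)
        linarith
      have h4 : 3 / 2 * Real.log 2 * ℓ ≤ 2 * ℓ := mul_le_mul_of_nonneg_right hlog (by linarith)
      exact mul_le_mul h4 h1 h3 (by linarith)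
    have h3 : (typR E n Δ L).card * (36 * 3 ^ m / (2 : ℝ) ^ L) + 36 * 3 ^ m / (2 : ℝ) ^ L ≤ 36 * δ := by
      refine le_trans ?_ hsmall
      have h4 := card_typR_le (E := E) (n := n) (Δ := Δ) (L := L) hE1
      have h5 : (0 : ℝ) ≤ 36 * 3 ^ m / (2 : ℝ) ^ L := by positivity
      nlinarith [mul_le_mul_of_nonneg_right h4 h5]
    have h4 : 36 * δ ≤ 36 * (ℓ * δ) := by nlinarith
    have h5 : 3 / 2 * Real.log 2 * ℓ * (1 - Z E ^ n * Pr E (typR E n Δ L)) =
        3 / 2 * Real.log 2 * ℓ - 3 / 2 * Real.log 2 * ℓ * (Z E ^ n * Pr E (typR E n Δ L)) := by ring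
    have h6 : 2 * (ℓ : ℝ) * (δ + (4 * x + 80 * δ)) = 162 * (ℓ * δ) + 8 * (ℓ * x) := by ring
    have h7 : (ℓ : ℝ) * (8 * x + 198 * δ) = 198 * (ℓ * δ) + 8 * (ℓ * x) := by ring
    rw [h7]
    rw [h5, h6] at h2
    linarith
  -- the typical part
  have hT1ub : ∑ v ∈ bx (B + n), ∑ W ∈ typR E n Δ L, (if vd W v then g1 (ch W v) else 0) ≤
      (∑ v ∈ bx (B + n), ∑ W ∈ typR E n Δ L, if vd W v ∧ ch W v ∈ win L B then
        wt E W * F E m (ch W v) * a v / |(v : ℝ)| else 0) + δ * LS L B (F E m) := by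
    have h1 : ∀ v ∈ bx (B + n), ∀ W ∈ typR E n Δ L, (if vd W v then g1 (ch W v) else 0) ≤
        (if vd W v ∧ ch W v ∈ win L B then wt E W * F E m (ch W v) * a v / |(v : ℝ)| else 0) +
        δ * (if vd W v then g2 (ch W v) else 0) := by
      intro v hv W hW
      by_cases hvd : vd W v
      · by_cases hw : ch W v ∈ win L B
        · simp only [hg1, hg2]
          have hand : vd W v ∧ ch W v ∈ win L B := ⟨hvd, hw⟩
          rw [if_pos hvd, if_pos hand, if_pos hw, if_pos hvd, if_pos hw]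
          have hW' := sp_mem_typ.1 (typR_sub _ _ _ _ hW)
          have hOO := (sp_mem_bx.1 hv).2
          have h2 := typ_point hL hnL hΔ hE1 (typR_sub _ _ _ _ hW) hvd (sp_mem_win.1 hw).2
          have h3 := ha.mono n (3 * Δ) L W v hn₀ (by push_cast; exact hΔc) hΔ3 hnL (one_le_of_mem hW'.1)
            (length_of_mem hW'.1) (mem_typR.1 hW).2 hW'.2.2.2 hOO hvd (sp_mem_win.1 hw).2
          have h4 := ha.nonneg v
          have h5 := ha.le_one v
          have h6 := hF0 (ch W v)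
          have h7 : (0 : ℝ) ≤ 1 / |(ch W v : ℝ)| := by positivity
          calc F E m (ch W v) * a (ch W v) / |(ch W v : ℝ)|
              = F E m (ch W v) * a (ch W v) * (1 / |(ch W v : ℝ)|) := by ring
            _ ≤ F E m (ch W v) * a v * (1 / |(ch W v : ℝ)|) :=
                mul_le_mul_of_nonneg_right (mul_le_mul_of_nonneg_left h3 h6) h7
            _ ≤ F E m (ch W v) * a v * (wt E W / |(v : ℝ)| + δ / |(ch W v : ℝ)|) :=
                mul_le_mul_of_nonneg_left h2 (mul_nonneg h6 h4)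
            _ = wt E W * F E m (ch W v) * a v / |(v : ℝ)| + F E m (ch W v) * a v * (δ / |(ch W v : ℝ)|) := by
                ring
            _ ≤ wt E W * F E m (ch W v) * a v / |(v : ℝ)| + F E m (ch W v) * 1 * (δ / |(ch W v : ℝ)|) := by
                have h8 : (0 : ℝ) ≤ δ / |(ch W v : ℝ)| := by positivity
                have h9 := mul_le_mul_of_nonneg_right (mul_le_mul_of_nonneg_left h5 h6) h8
                linarith
            _ = _ := by ring
        · have e1 : g1 (ch W v) = 0 := if_neg hw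
          have e2 : g2 (ch W v) = 0 := if_neg hw
          have hand : ¬ (vd W v ∧ ch W v ∈ win L B) := fun h => hw h.2
          rw [e1, e2, if_neg hand, ite_self, mul_zero, add_zero]
      · have hand : ¬ (vd W v ∧ ch W v ∈ win L B) := fun h => hvd h.1
        rw [if_neg hvd, if_neg hand, if_neg hvd, mul_zero, add_zero]
    have h2 := sum_le_sum fun v hv => sum_le_sum (h1 v hv)
    refine h2.trans ?_
    simp only [sum_add_distrib, ← mul_sum]
    have h3 : ∑ v ∈ bx (B + n), ∑ W ∈ typR E n Δ L, (if vd W v then g2 (ch W v) else 0) ≤ LS L B (F E m) := by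
      rw [← htot, hT2]
      refine sum_le_sum fun v _ => ?_
      refine sum_le_sum_of_subset_of_nonneg (typR_sub' _ _ _ _) fun W _ _ => ?_
      split_ifs
      · exact hg20 _
      · exact le_rfl
    have h4 := mul_le_mul_of_nonneg_left h3 hδ0.le
    linarith
  have hδ1 : δ ≤ 1 := pow_le_one₀ (by norm_num) (by norm_num)
  have hextra : δ * LS L B (F E m) ≤ ℓ * (38 * δ) := by
    have h1 : LS L B (F E m) ≤ 2 * ℓ + 36 * δ := by
      have h2 : 3 / 2 * Real.log 2 * ℓ ≤ 2 * ℓ := mul_le_mul_of_nonneg_right hlog (by linarith)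
      linarith
    have h2 : LS L B (F E m) ≤ 38 * ℓ := by linarith
    calc δ * LS L B (F E m) ≤ δ * (38 * ℓ) := mul_le_mul_of_nonneg_left h2 hδ0.le
      _ = _ := by ring
  have hLS1 : LS L B (fun v => F E m v * a v) = ∑ u ∈ bx B, g1 u := by rw [LS_eq]
  have hsum : ∑ u ∈ bx B, g1 u =
      ∑ v ∈ bx (B + n), ∑ W ∈ words E n \ typR E n Δ L, (if vd W v then g1 (ch W v) else 0) +
      ∑ v ∈ bx (B + n), ∑ W ∈ typR E n Δ L, (if vd W v then g1 (ch W v) else 0) := by
    rw [hT1, ← sum_add_distrib]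
    refine sum_congr rfl fun v _ => ?_
    rw [← sum_sdiff (typR_sub' E n Δ L)]
  rw [hLS1, hsum]
  have hfin : (ℓ : ℝ) * (8 * x + 198 * δ) + ℓ * (38 * δ) ≤ 300 * ℓ * (x + δ) := by
    have h1 : 0 ≤ (ℓ : ℝ) * x := by positivity
    have h2 : 0 ≤ (ℓ : ℝ) * δ := by positivity
    nlinarith
  linarith

end CollatzTime
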