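import Pool.Agent.CollatzTime.SplitC
import Pool.Agent.CollatzLin.Step

set_option autoImplicit false

/-!
# One step of `n` letters, regular typical words
-/

namespace CollatzTime

open CollatzLin CollatzOne Finset

theorem step (c : ℝ) (n₀ : ℕ) : ∃ (C : ℝ) (L₀ E₀ : ℕ), 0 < C ∧ ∀ L ℓ n m Δ E : ℕ, L₀ ≤ L → 1 ≤ ℓ → 1 ≤ n → 4 * n ≤ L →
    16 * m ≤ L → 3 * Δ ≤ n → n₀ ≤ n → 3 * (Δ : ℝ) ≤ c * n → E₀ ≤ E → 2 * (L + ℓ + n + 4) ≤ E → ∀ a : ℤ → ℝ, AdmC c n₀ a →
    LS L (L + ℓ) (fun v => F E m v * a v) ≤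
      LS (L - sh n) (L - sh n + ℓ) (fun v => F E (n + m) v * a v) + C * (Δ + 1) +
      C * ℓ * ((n + 1) * Real.exp (-((Δ : ℝ) ^ 2 / (8 * n))) + (1 / 2) ^ (L / 16)) := by
  classical
  obtain ⟨C₀, L₀, E₀, hC₀, hsplit⟩ := split c n₀
  refine ⟨C₀ + 24, max L₀ 32, max E₀ 1, by linarith, ?_⟩
  intro L ℓ n m Δ E hL hℓ hn h4 h16 hΔ3 hn₀ hΔc hE hE2 a ha
  have hΔ : Δ ≤ n := by omega
  have hL0 : L₀ ≤ L := (le_max_left _ _).trans hL
  have hL32 : 32 ≤ L := (le_max_right _ _).trans hL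
  have hE0 : E₀ ≤ E := (le_max_left _ _).trans hE
  have hE1 : 1 ≤ E := (le_max_right _ _).trans hE
  have h1 := hsplit L ℓ n m Δ E hL0 hℓ hn h4 h16 hΔ3 hn₀ hΔc hE0 hE2 a ha
  have hsn := two_sh_leS n
  set s := sh n with hs
  set A' := L - s - Δ - 2 with hA'
  set B' := L - s + ℓ + (Δ + 1) with hB'
  -- the sum over typical words
  have h2 : (∑ v ∈ bx (L + ℓ + n), ∑ W ∈ typR E n Δ L, if vd W v ∧ ch W v ∈ win L (L + ℓ) then
        wt E W * F E m (ch W v) * a v / |(v : ℝ)| else 0) ≤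
      LS A' B' (fun v => F E (n + m) v * a v) := by
    have hpt : ∀ v ∈ bx (L + ℓ + n), (∑ W ∈ typR E n Δ L, if vd W v ∧ ch W v ∈ win L (L + ℓ) then
        wt E W * F E m (ch W v) * a v / |(v : ℝ)| else 0) ≤
        if v ∈ win A' B' then F E (n + m) v * a v / |(v : ℝ)| else 0 := by
      intro v hv
      have hOO : OO v := by
        unfold bx at hv
        exact (Finset.mem_filter.1 hv).2
      by_cases hw : v ∈ win A' B'
      · rw [if_pos hw, F_add]
        unfold MM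
        rw [Finset.sum_mul, Finset.sum_div]
        have hsub : typR E n Δ L ⊆ words E n := typR_sub' _ _ _ _
        refine le_trans ?_ (Finset.sum_le_sum_of_subset_of_nonneg hsub ?_)
        · refine Finset.sum_le_sum fun W _ => ?_
          by_cases hc : vd W v ∧ ch W v ∈ win L (L + ℓ)
          · rw [if_pos hc, if_pos hc.1]
          · rw [if_neg hc]
            split_ifs
            · have e1 := wt_nonneg E W
              have e2 := F_nonneg E m (ch W v)
              have e3 := ha.nonneg v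
              positivity
            · simp
        · intro W _ _
          split_ifs
          · have e1 := wt_nonneg E W
            have e2 := F_nonneg E m (ch W v)
            have e3 := ha.nonneg v
            positivity
          · simp
      · rw [if_neg hw]
        refine le_of_eq (Finset.sum_eq_zero fun W hW => ?_)
        rw [if_neg]
        rintro ⟨hc1, hc2⟩
        exact hw (win_of_typ (by omega) (typR_sub _ _ _ _ hW) hOO hc1 hc2)
    refine (Finset.sum_le_sum hpt).trans ?_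
    rw [← Finset.sum_filter]
    unfold LS
    refine Finset.sum_le_sum_of_subset_of_nonneg ?_ ?_
    · intro v hv
      exact (Finset.mem_filter.1 hv).2
    · intro v _ _
      have e2 := F_nonneg E (n + m) v
      have e3 := ha.nonneg v
      positivity
  -- the extensions of the window
  have hnm : 4 * 3 ^ (n + m) ≤ 2 ^ A' := by
    have h5 : (3 ^ (n + m)) ^ 16 ≤ (2 ^ L) ^ 8 := by
      calc (3 ^ (n + m)) ^ 16 = 3 ^ (16 * (n + m)) := by rw [← pow_mul, mul_comm]
        _ ≤ 3 ^ (5 * L) := Nat.pow_le_pow_right (by norm_num) (by omega)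
        _ = (3 ^ 5) ^ L := by rw [pow_mul]
        _ ≤ (2 ^ 8) ^ L := Nat.pow_le_pow_left (by norm_num) L
        _ = (2 ^ L) ^ 8 := by rw [← pow_mul, ← pow_mul, mul_comm]
    have h6 : (3 ^ (n + m)) ^ 2 ≤ 2 ^ L := by
      have : ((3 ^ (n + m)) ^ 2) ^ 8 ≤ (2 ^ L) ^ 8 := by rw [← pow_mul]; exact h5
      exact (Nat.pow_le_pow_iff_left (by norm_num)).1 this
    have h7 : (4 * 3 ^ (n + m)) ^ 2 ≤ (2 ^ A') ^ 2 := by
      calc (4 * 3 ^ (n + m)) ^ 2 = 2 ^ 4 * (3 ^ (n + m)) ^ 2 := by rw [mul_pow]; norm_num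
        _ ≤ 2 ^ 4 * 2 ^ L := Nat.mul_le_mul_left _ h6
        _ = 2 ^ (4 + L) := by rw [pow_add]
        _ ≤ 2 ^ (A' * 2) := Nat.pow_le_pow_right (by norm_num) (by omega)
        _ = (2 ^ A') ^ 2 := by rw [pow_mul]
    exact (Nat.pow_le_pow_iff_left (by norm_num)).1 h7
  have hFa : ∀ v, F E (n + m) v * a v ≤ F E (n + m) v := fun v =>
    mul_le_of_le_one_right (F_nonneg _ _ _) (ha.le_one v)
  have hsplit1 : LS A' B' (fun v => F E (n + m) v * a v) =
      LS A' (L - s) (fun v => F E (n + m) v * a v) +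
      (LS (L - s) (L - s + ℓ) (fun v => F E (n + m) v * a v) +
       LS (L - s + ℓ) B' (fun v => F E (n + m) v * a v)) := by
    rw [LS_addS (B := L - s) (by omega) (by omega), LS_addS (A := L - s) (B := L - s + ℓ) (by omega)
      (by omega)]
  have hx1 := LS_F_le (A := A') (B := L - s) hE1 (by omega) hnm hFa
  have hx2 := LS_F_le (A := L - s + ℓ) (B := B') hE1 (by omega)
    (hnm.trans (Nat.pow_le_pow_right (by norm_num) (by omega))) hFa
  have hc1 : ((L - s : ℕ) : ℝ) - (A' : ℕ) = Δ + 2 := by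
    have : L - s = A' + (Δ + 2) := by omega
    rw [this]; push_cast; ring
  have hc2 : ((B' : ℕ) : ℝ) - ((L - s + ℓ : ℕ) : ℝ) = Δ + 1 := by
    have : B' = (L - s + ℓ) + (Δ + 1) := by omega
    rw [this]; push_cast; ring
  rw [hc1] at hx1
  rw [hc2] at hx2
  have hlast : C₀ * ℓ * ((n + 1) * Real.exp (-((Δ : ℝ) ^ 2 / (8 * n))) + (1 / 2) ^ (L / 16)) ≤
      (C₀ + 24) * ℓ * ((n + 1) * Real.exp (-((Δ : ℝ) ^ 2 / (8 * n))) + (1 / 2) ^ (L / 16)) := by
    have : 0 ≤ (n + 1) * Real.exp (-((Δ : ℝ) ^ 2 / (8 * n))) + (1 / 2) ^ (L / 16) := by positivity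
    gcongr
    linarith
  have hΔ0 : (0 : ℝ) ≤ Δ := Nat.cast_nonneg _
  have hΔ1 : 2 * ((Δ : ℝ) + 2) + 9 + (2 * (Δ + 1) + 9) ≤ (C₀ + 24) * (Δ + 1) := by nlinarith
  rw [hsplit1] at h2
  linarith

end CollatzTime
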